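import Pool.Agent.H28.CXR.POS

/-! ALT: reduced words in two letters. -/

set_option autoImplicit false

namespace Pool.Agent.H28.CXR.ALT

open Matrix

variable {n : ℕ}

theorem refl_refl {A : Matrix (Fin n) (Fin n) ℝ} (hA : ∀ i, A i i = 2) (i : Fin n)
    (x : Fin n → ℝ) : refl A i (refl A i x) = x := by
  have h1 : (A *ᵥ (refl A i x)) i = -((A *ᵥ x) i) := by
    have h2 : refl A i x = x - Pi.single i ((A *ᵥ x) i) := rfl
    rw [h2, mulVec_sub, Pi.sub_apply, mulVec_single]
    simp only [Pi.smul_apply, Matrix.col_apply, hA, MulOpposite.smul_eq_mul_unop,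
      MulOpposite.unop_op]
    ring
  funext j
  have h3 : refl A i (refl A i x) j =
      refl A i x j - (Pi.single i ((A *ᵥ (refl A i x)) i) : Fin n → ℝ) j := rfl
  rw [h3, h1]
  simp only [refl, Pi.sub_apply, Pi.single_apply]
  split_ifs <;> ring

theorem same_refl {A : Matrix (Fin n) (Fin n) ℝ} (l : List (Fin n)) : Same A l l := fun _ => rfl

theorem same_double {A : Matrix (Fin n) (Fin n) ℝ} (hA : ∀ i, A i i = 2) (l : List (Fin n))
    (i : Fin n) : Same A (l ++ [i] ++ [i]) l := by
  intro x
  rw [POS.act_append, POS.act_append]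
  simp only [act]
  rw [refl_refl hA]

theorem alt_length (i j : Fin n) (k : ℕ) : (alt i j k).length = k := by
  induction k generalizing i j with
  | zero => rfl
  | succ k ih => simp [alt, ih]

theorem alt_suffix (k : ℕ) : ∀ (K : ℕ) (i j : Fin n), k ≤ K → ∃ p, alt i j K = p ++ alt i j k := by
  induction k with
  | zero => intro K i j _; exact ⟨alt i j K, by simp [alt]⟩
  | succ k ih =>
    intro K i j hK
    obtain ⟨K', rfl⟩ : ∃ K', K = K' + 1 := ⟨K - 1, by omega⟩
    obtain ⟨p, hp⟩ := ih K' j i (by omega)
    exact ⟨p, by simp only [alt]; rw [hp, List.append_assoc]⟩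

theorem not_reduced {A : Matrix (Fin n) (Fin n) ℝ} (hA : ∀ i, A i i = 2) (i j : Fin n) (m : ℕ)
    (hm : Same A (alt i j (m + 1)) (alt j i (m + 1))) : ¬ Reduced A (alt i j (m + 1) ++ [i]) := by
  intro h
  have h1 : Same A (alt i j (m + 1) ++ [i]) (alt i j m) := by
    intro x
    have h2 := POS.same_append hm (same_refl [i]) x
    rw [h2]
    have h3 : alt j i (m + 1) = alt i j m ++ [i] := rfl
    rw [h3]
    exact same_double hA _ _ x
  have h4 := h _ h1
  rw [List.length_append, alt_length, alt_length] at h4
  simp at h4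

theorem eq_alt {A : Matrix (Fin n) (Fin n) ℝ} (hA : ∀ i, A i i = 2) (u : List (Fin n)) :
    ∀ i j : Fin n, (∀ a ∈ u, a = i ∨ a = j) → Reduced A (u ++ [i]) → u = alt i j u.length := by
  induction u using List.reverseRecOn with
  | nil => intro i j _ _; rfl
  | append_singleton u a ih =>
    intro i j hu hred
    have ha : a = i ∨ a = j := hu a (by simp)
    rcases ha with ha | ha
    · exfalso
      rw [ha] at hred
      have h1 := hred u (same_double hA u i)
      simp at h1
    · have h1 := ih j i (fun b hb => (hu b (by simp [hb])).symm) (by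
        rw [← ha]
        exact POS.reduced_prefix hred)
      rw [List.length_append, List.length_singleton]
      have h2 : alt i j (u.length + 1) = alt j i u.length ++ [j] := rfl
      rw [h2, ← h1, ha]

theorem main (h0 : S_BR0) (h1 : S_BR1) (h2 : S_BR2) (h3 : S_BR3) : S_ALT := by
  intro n A hA i j hij u hu hred
  have hu' := eq_alt hA.diag u i j hu hred
  have key : ∀ m : ℕ, Same A (alt i j (m + 1)) (alt j i (m + 1)) → u.length ≤ m := by
    intro m hm
    by_contra hcon
    rw [not_le] at hcon
    apply not_reduced hA.diag i j m hm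
    have h4 : alt j i (u.length + 1) = u ++ [i] := by
      have h5 : alt j i (u.length + 1) = alt i j u.length ++ [i] := rfl
      rw [h5, ← hu']
    obtain ⟨p, hp⟩ := alt_suffix (m + 1 + 1) (u.length + 1) j i (by omega)
    have h6 : alt j i (m + 1 + 1) = alt i j (m + 1) ++ [i] := rfl
    rw [← h6]
    rw [← h4, hp] at hred
    exact POS.reduced_suffix hred
  exact ⟨hu', fun h => key 1 (h0 n A hA i j hij h), fun h => key 2 (h1 n A hA i j hij h),
    fun h => key 3 (h2 n A hA i j hij h), fun h => key 5 (h3 n A hA i j hij h)⟩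

end Pool.Agent.H28.CXR.ALT
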