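import Pool.Agent.H28.CXR.Stm

/-! BR0, BR1, BR2, BR3: the braid relations, and DIH. -/

set_option autoImplicit false

namespace Pool.Agent.H28.CXR.BR

open Matrix

variable {n : ℕ} {A : Matrix (Fin n) (Fin n) ℝ} {i j : Fin n}

/-- `x + p e_i + q e_j` -/
noncomputable def cb (x : Fin n → ℝ) (i j : Fin n) (p q : ℝ) : Fin n → ℝ :=
  x + Pi.single i p + Pi.single j q

theorem cb_zero (x : Fin n → ℝ) (i j : Fin n) : cb x i j 0 0 = x := by
  simp [cb]

theorem cb_comm (x : Fin n → ℝ) (i j : Fin n) (p q : ℝ) : cb x i j p q = cb x j i q p := by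
  unfold cb
  abel

theorem refl_i (hA : A i i = 2) (x : Fin n → ℝ) (p q : ℝ) :
    refl A i (cb x i j p q) = cb x i j (-p - (A *ᵥ x) i - A i j * q) q := by
  have h1 : (A *ᵥ (cb x i j p q)) i = (A *ᵥ x) i + 2 * p + A i j * q := by
    unfold cb
    rw [mulVec_add, mulVec_add]
    simp only [Pi.add_apply, mulVec_single, Pi.smul_apply, MulOpposite.smul_eq_mul_unop,
      MulOpposite.unop_op, Matrix.col_apply, hA]
  unfold refl
  rw [h1]
  funext k
  simp only [cb, Pi.sub_apply, Pi.add_apply, Pi.single_apply]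
  split_ifs <;> ring

theorem refl_j (hA : A j j = 2) (x : Fin n → ℝ) (p q : ℝ) :
    refl A j (cb x i j p q) = cb x i j p (-q - (A *ᵥ x) j - A j i * p) := by
  rw [cb_comm, refl_i hA, cb_comm]

theorem br0 : S_BR0 := by
  intro n A hA i j hij hc x
  have ha : A i j = 0 := by
    rcases mul_eq_zero.1 hc with h | h
    · exact h
    · exact hA.zero _ _ h
  have hb : A j i = 0 := hA.zero _ _ ha
  change refl A i (refl A j x) = refl A j (refl A i x)
  have e1 : refl A j x = cb x i j 0 (-0 - (A *ᵥ x) j - A j i * 0) := by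
    conv_lhs => rw [← cb_zero x i j]
    exact refl_j (hA.diag j) x 0 0
  have e2 : refl A i x = cb x i j (-0 - (A *ᵥ x) i - A i j * 0) 0 := by
    conv_lhs => rw [← cb_zero x i j]
    exact refl_i (hA.diag i) x 0 0
  rw [e1, e2, refl_i (hA.diag i), refl_j (hA.diag j), ha, hb]
  congr 1 <;> ring

theorem br1 : S_BR1 := by
  intro n A hA i j hij hc x
  change refl A j (refl A i (refl A j x)) = refl A i (refl A j (refl A i x))
  have e1 : refl A j x = cb x i j 0 (-0 - (A *ᵥ x) j - A j i * 0) := by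
    conv_lhs => rw [← cb_zero x i j]
    exact refl_j (hA.diag j) x 0 0
  have e2 : refl A i x = cb x i j (-0 - (A *ᵥ x) i - A i j * 0) 0 := by
    conv_lhs => rw [← cb_zero x i j]
    exact refl_i (hA.diag i) x 0 0
  rw [e1, e2]
  simp only [refl_i (hA.diag i), refl_j (hA.diag j)]
  congr 1
  · linear_combination ((A *ᵥ x) i) * hc
  · linear_combination (-(A *ᵥ x) j) * hc

theorem br2 : S_BR2 := by
  intro n A hA i j hij hc x
  change refl A i (refl A j (refl A i (refl A j x))) = refl A j (refl A i (refl A j (refl A i x)))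
  have e1 : refl A j x = cb x i j 0 (-0 - (A *ᵥ x) j - A j i * 0) := by
    conv_lhs => rw [← cb_zero x i j]
    exact refl_j (hA.diag j) x 0 0
  have e2 : refl A i x = cb x i j (-0 - (A *ᵥ x) i - A i j * 0) 0 := by
    conv_lhs => rw [← cb_zero x i j]
    exact refl_i (hA.diag i) x 0 0
  rw [e1, e2]
  simp only [refl_i (hA.diag i), refl_j (hA.diag j)]
  congr 1
  · linear_combination (A i j * (A *ᵥ x) j) * hc
  · linear_combination (-(A j i * (A *ᵥ x) i)) * hc

theorem br3 : S_BR3 := by
  intro n A hA i j hij hc x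
  change refl A i (refl A j (refl A i (refl A j (refl A i (refl A j x))))) =
    refl A j (refl A i (refl A j (refl A i (refl A j (refl A i x)))))
  have e1 : refl A j x = cb x i j 0 (-0 - (A *ᵥ x) j - A j i * 0) := by
    conv_lhs => rw [← cb_zero x i j]
    exact refl_j (hA.diag j) x 0 0
  have e2 : refl A i x = cb x i j (-0 - (A *ᵥ x) i - A i j * 0) 0 := by
    conv_lhs => rw [← cb_zero x i j]
    exact refl_i (hA.diag i) x 0 0
  rw [e1, e2]
  simp only [refl_i (hA.diag i), refl_j (hA.diag j)]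
  congr 1
  · linear_combination (A i j * (A *ᵥ x) j * (A i j * A j i - 1)) * hc
  · linear_combination (-(A j i * (A *ᵥ x) i * (A i j * A j i - 1))) * hc

/-! ## DIH -/

theorem rj (hA : A j j = 2) (p q : ℝ) :
    refl A j (p • (Pi.single i 1 : Fin n → ℝ) + q • Pi.single j 1) =
      p • (Pi.single i 1 : Fin n → ℝ) + (-A j i * p - q) • Pi.single j 1 := by
  have e : ∀ p q : ℝ, p • (Pi.single i 1 : Fin n → ℝ) + q • Pi.single j 1 = cb 0 i j p q := by
    intro p q
    unfold cb
    rw [zero_add, ← Pi.single_smul, ← Pi.single_smul]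
    simp
  rw [e, e, refl_j hA]
  congr 1
  rw [mulVec_zero]
  simp only [Pi.zero_apply]
  ring

theorem act_append (l l' : List (Fin n)) (x : Fin n → ℝ) :
    act A (l ++ l') x = act A l (act A l' x) := by
  induction l with
  | nil => rfl
  | cons i l ih => rw [List.cons_append, act, ih, act]

theorem act_alt (k : ℕ) (x : Fin n → ℝ) :
    act A (alt i j (k + 1)) x = act A (alt j i k) (refl A j x) := by
  rw [alt, act_append]
  rfl

theorem big (k : ℕ) : ∀ (i j : Fin n) (p q : ℝ), A i i = 2 → A j j = 2 → A i j ≤ 0 → A j i ≤ 0 →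
    4 ≤ A i j * A j i → 0 ≤ p → 0 ≤ q → 2 * q ≤ -A j i * p →
    ∃ p' q' : ℝ, 0 ≤ p' ∧ 0 ≤ q' ∧
      act A (alt i j k) (p • (Pi.single i 1 : Fin n → ℝ) + q • Pi.single j 1) =
        p' • (Pi.single i 1 : Fin n → ℝ) + q' • Pi.single j 1 := by
  induction k with
  | zero =>
    intro i j p q _ _ _ _ _ hp hq _
    exact ⟨p, q, hp, hq, rfl⟩
  | succ k ih =>
    intro i j p q hi hj ha hb hc hp hq h
    have hq' : 0 ≤ -A j i * p - q := by linarith
    have h1 : 2 * p ≤ -A i j * (-A j i * p - q) := by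
      have h2 : -A i j * (-A j i * p) / 2 ≤ -A i j * (-A j i * p - q) := by
        have h3 : (-A j i * p) / 2 ≤ -A j i * p - q := by linarith
        have h4 := mul_le_mul_of_nonneg_left h3 (neg_nonneg.2 ha)
        linarith
      nlinarith
    obtain ⟨q', p', hq2, hp2, he⟩ := ih j i (-A j i * p - q) p hj hi hb ha (by linarith) hq' hp h1
    refine ⟨p', q', hp2, hq2, ?_⟩
    rw [act_alt, rj hj, add_comm (p • (Pi.single i 1 : Fin n → ℝ)), he, add_comm]

theorem main : S_DIH := by
  intro n A hA i j hij k h0 h1 h2 h3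
  have hi := hA.diag i
  have hj := hA.diag j
  have ha := hA.off i j hij
  have hb := hA.off j i (Ne.symm hij)
  have hstart : (Pi.single i 1 : Fin n → ℝ) =
      (1 : ℝ) • (Pi.single i 1 : Fin n → ℝ) + (0 : ℝ) • Pi.single j 1 := by simp
  have ri : ∀ p q : ℝ, refl A i (p • (Pi.single i 1 : Fin n → ℝ) + q • Pi.single j 1) =
      (-A i j * q - p) • (Pi.single i 1 : Fin n → ℝ) + q • Pi.single j 1 := by
    intro p q
    rw [add_comm, rj hi, add_comm]
  have hsmall : ∀ c : ℝ, A i j * A j i = c → (c = 0 → k ≤ 1) → (c = 1 → k ≤ 2) → (c = 2 → k ≤ 3) →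
      (c = 3 → k ≤ 5) → (c = 0 ∨ c = 1 ∨ c = 2 ∨ c = 3) → ∃ p q : ℝ, 0 ≤ p ∧ 0 ≤ q ∧
      act A (alt i j k) (Pi.single i 1) = p • (Pi.single i 1 : Fin n → ℝ) + q • Pi.single j 1 := by
    intro c hc c0 c1 c2 c3 hcc
    have hk : k ≤ 5 := by
      rcases hcc with h | h | h | h
      · exact (c0 h).trans (by norm_num)
      · exact (c1 h).trans (by norm_num)
      · exact (c2 h).trans (by norm_num)
      · exact c3 h
    have hc0 : k = 0 ∨ k = 1 ∨ (k = 2 ∧ 1 ≤ c) ∨ (k = 3 ∧ 2 ≤ c) ∨ (k = 4 ∧ c = 3) ∨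
        (k = 5 ∧ c = 3) := by
      rcases hcc with h | h | h | h
      · have := c0 h
        omega
      · have := c1 h
        rcases (by omega : k = 0 ∨ k = 1 ∨ k = 2) with h' | h' | h'
        · exact Or.inl h'
        · exact Or.inr (Or.inl h')
        · exact Or.inr (Or.inr (Or.inl ⟨h', by rw [h]⟩))
      · have := c2 h
        rcases (by omega : k = 0 ∨ k = 1 ∨ k = 2 ∨ k = 3) with h' | h' | h' | h'
        · exact Or.inl h'
        · exact Or.inr (Or.inl h')
        · exact Or.inr (Or.inr (Or.inl ⟨h', by rw [h]; norm_num⟩))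
        · exact Or.inr (Or.inr (Or.inr (Or.inl ⟨h', by rw [h]⟩)))
      · have := c3 h
        rcases (by omega : k = 0 ∨ k = 1 ∨ k = 2 ∨ k = 3 ∨ k = 4 ∨ k = 5) with
          h' | h' | h' | h' | h' | h'
        · exact Or.inl h'
        · exact Or.inr (Or.inl h')
        · exact Or.inr (Or.inr (Or.inl ⟨h', by rw [h]; norm_num⟩))
        · exact Or.inr (Or.inr (Or.inr (Or.inl ⟨h', by rw [h]; norm_num⟩)))
        · exact Or.inr (Or.inr (Or.inr (Or.inr (Or.inl ⟨h', h⟩))))
        · exact Or.inr (Or.inr (Or.inr (Or.inr (Or.inr ⟨h', h⟩))))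
    rcases hc0 with h | h | ⟨h, hcc⟩ | ⟨h, hcc⟩ | ⟨h, hcc⟩ | ⟨h, hcc⟩
    · subst h
      exact ⟨1, 0, by norm_num, le_rfl, hstart⟩
    · subst h
      refine ⟨1, -A j i * 1 - 0, by norm_num, by linarith, ?_⟩
      change refl A j (Pi.single i 1) = _
      conv_lhs => rw [hstart]
      exact rj hj 1 0
    · subst h
      refine ⟨c - 1, -A j i, by linarith, by linarith, ?_⟩
      change refl A i (refl A j (Pi.single i 1)) = _
      conv_lhs => rw [hstart]
      rw [rj hj, ri]
      congr 2
      · linear_combination hc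
      · ring
    · subst h
      refine ⟨c - 1, -A j i * (c - 2), by linarith, ?_, ?_⟩
      · exact mul_nonneg (by linarith) (by linarith)
      change refl A j (refl A i (refl A j (Pi.single i 1))) = _
      conv_lhs => rw [hstart]
      rw [rj hj, ri, rj hj]
      congr 2
      · linear_combination hc
      · linear_combination (-A j i) * hc
    · subst h
      rw [hcc] at hc
      refine ⟨1, -A j i, by norm_num, by linarith, ?_⟩
      change refl A i (refl A j (refl A i (refl A j (Pi.single i 1)))) = _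
      conv_lhs => rw [hstart]
      rw [rj hj, ri, rj hj, ri]
      congr 2
      · linear_combination (A i j * A j i) * hc
      · linear_combination (-A j i) * hc
    · subst h
      rw [hcc] at hc
      refine ⟨1, 0, by norm_num, le_rfl, ?_⟩
      change refl A j (refl A i (refl A j (refl A i (refl A j (Pi.single i 1))))) = _
      conv_lhs => rw [hstart]
      rw [rj hj, ri, rj hj, ri, rj hj]
      congr 2
      · linear_combination (A i j * A j i) * hc
      · linear_combination (-A j i * (A i j * A j i - 1)) * hc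
  rcases hA.prod i j hij with h | h | h | h | h
  · exact hsmall 0 h (fun _ => h0 h) (by norm_num) (by norm_num) (by norm_num) (by norm_num)
  · exact hsmall 1 h (by norm_num) (fun _ => h1 h) (by norm_num) (by norm_num) (by norm_num)
  · exact hsmall 2 h (by norm_num) (by norm_num) (fun _ => h2 h) (by norm_num) (by norm_num)
  · exact hsmall 3 h (by norm_num) (by norm_num) (by norm_num) (fun _ => h3 h) (by norm_num)
  · obtain ⟨p, q, hp, hq, he⟩ := big k i j 1 0 hi hj ha hb h (by norm_num) le_rfl (by linarith)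
    refine ⟨p, q, hp, hq, ?_⟩
    rw [← he, ← hstart]

end Pool.Agent.H28.CXR.BR
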