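import Pool.Agent.H28.CXR.Stm

/-! CXR-CNT (helper51): a contraction for a Hermitian form with at most `r` negative squares has at
most `r` eigenvalues outside the unit circle. -/

set_option autoImplicit false

namespace Pool.Agent.H28.CXR.CNT

open Matrix Polynomial Filter Topology
open scoped ComplexOrder

variable {n : ℕ}

/-- vectors with backward orbits tending to zero -/
def N (f : Module.End ℂ (Fin n → ℂ)) : Submodule ℂ (Fin n → ℂ) where
  carrier := {x | ∃ y : ℕ → (Fin n → ℂ), (∀ m, (f ^ m) (y m) = x) ∧ Tendsto y atTop (𝓝 0)}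
  add_mem' := by
    rintro x x' ⟨y, hy, hy0⟩ ⟨y', hy', hy0'⟩
    refine ⟨fun m => y m + y' m, fun m => by rw [map_add, hy, hy'], ?_⟩
    simpa using hy0.add hy0'
  zero_mem' := ⟨fun _ => 0, fun m => map_zero _, tendsto_const_nhds⟩
  smul_mem' := by
    rintro c x ⟨y, hy, hy0⟩
    refine ⟨fun m => c • y m, fun m => by rw [map_smul, hy], ?_⟩
    simpa using hy0.const_smul c

theorem gen_le (f : Module.End ℂ (Fin n → ℂ)) (μ : ℂ) (hμ : 1 < ‖μ‖) :
    f.maxGenEigenspace μ ≤ N f := by
  intro x hx
  rw [Module.End.mem_maxGenEigenspace] at hx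
  obtain ⟨k, hk⟩ := hx
  have hμ0 : μ ≠ 0 := by
    rintro rfl; simp at hμ; linarith
  -- Y nilpotent on x
  set Y : Module.End ℂ (Fin n → ℂ) := (-μ⁻¹) • (f - μ • 1) with hY
  have hfY : f = μ • (1 - Y) := by
    rw [hY, smul_sub, smul_smul, mul_neg, mul_inv_cancel₀ hμ0, neg_one_smul]; abel
  have hYk : (Y ^ k) x = 0 := by
    rw [hY, _root_.smul_pow, LinearMap.smul_apply, hk, smul_zero]
  have hYj : ∀ j, k ≤ j → (Y ^ j) x = 0 := by
    intro j hj
    obtain ⟨i, rfl⟩ := Nat.exists_eq_add_of_le' hj
    rw [pow_add, Module.End.mul_apply, hYk, map_zero]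
  set U : Module.End ℂ (Fin n → ℂ) := ∑ j ∈ Finset.range k, Y ^ j with hU
  set P : Module.End ℂ (Fin n → ℂ) := ∑ j ∈ Finset.range (k + 1), Y ^ j with hP
  have h1 : (1 - Y) * P = 1 - Y ^ (k + 1) := mul_neg_geom_sum Y (k + 1)
  have hcYU : Commute Y U := by
    rw [hU]
    apply Commute.sum_right
    intro j _
    exact (Commute.refl Y).pow_right j
  have hcYP : Commute Y P := by
    rw [hP]
    apply Commute.sum_right
    intro j _
    exact (Commute.refl Y).pow_right j
  have hcW : Commute (1 - Y) P := (Commute.one_left P).sub_left hcYP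
  have hPW : P = Y * U + 1 := by
    rw [hP, hU, Finset.sum_range_succ', pow_zero, Finset.mul_sum]
    congr 1
    apply Finset.sum_congr rfl
    intro j _
    rw [pow_succ']
  set W : Module.End ℂ (Fin n → ℂ) := Y * U with hW
  have hWj : ∀ j, k ≤ j → (W ^ j) x = 0 := by
    intro j hj
    rw [hW, hcYU.mul_pow, (hcYU.pow_pow j j).eq, Module.End.mul_apply, hYj j hj, map_zero]
  -- the backward orbit
  refine ⟨fun m => (μ⁻¹) ^ m • (P ^ m) x, ?_, ?_⟩
  · intro m
    have h2 : ((1 - Y) ^ m) ((P ^ m) x) = x := by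
      rw [← Module.End.mul_apply, ← hcW.mul_pow, h1]
      induction m with
      | zero => simp
      | succ m ih =>
        rw [pow_succ, Module.End.mul_apply]
        have h3 : (1 - Y ^ (k + 1)) x = x := by
          rw [LinearMap.sub_apply, hYj (k + 1) (by omega), sub_zero, Module.End.one_apply]
        rw [h3, ih]
    rw [map_smul]
    conv_lhs => rw [hfY]
    rw [_root_.smul_pow, LinearMap.smul_apply, h2, smul_smul, ← mul_pow, inv_mul_cancel₀ hμ0,
      one_pow, one_smul]
  · -- limit
    have h4 : ∀ m, (P ^ m) x = ∑ j ∈ Finset.range k, ((m.choose j : ℕ) : ℂ) • (W ^ j) x := by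
      intro m
      rw [hPW, (Commute.one_right W).add_pow, LinearMap.sum_apply]
      have e1 : ∑ j ∈ Finset.range (m + 1),
          (W ^ j * 1 ^ (m - j) * ((m.choose j : ℕ) : Module.End ℂ (Fin n → ℂ))) x =
          ∑ j ∈ Finset.range (m + 1), ((m.choose j : ℕ) : ℂ) • (W ^ j) x := by
        apply Finset.sum_congr rfl
        intro j _
        rw [one_pow, mul_one, Module.End.mul_apply, Module.End.natCast_apply, map_nsmul,
          Nat.cast_smul_eq_nsmul]
      rw [e1]
      have e2 : ∑ j ∈ Finset.range (m + 1), ((m.choose j : ℕ) : ℂ) • (W ^ j) x =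
          ∑ j ∈ Finset.range (m + 1 + k), ((m.choose j : ℕ) : ℂ) • (W ^ j) x := by
        apply Finset.sum_subset
        · intro j hj
          rw [Finset.mem_range] at hj ⊢
          omega
        · intro j _ hj
          rw [Finset.mem_range] at hj
          rw [Nat.choose_eq_zero_of_lt (by omega)]
          simp
      have e3 : ∑ j ∈ Finset.range k, ((m.choose j : ℕ) : ℂ) • (W ^ j) x =
          ∑ j ∈ Finset.range (m + 1 + k), ((m.choose j : ℕ) : ℂ) • (W ^ j) x := by
        apply Finset.sum_subset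
        · intro j hj
          rw [Finset.mem_range] at hj ⊢
          omega
        · intro j _ hj
          rw [Finset.mem_range] at hj
          rw [hWj j (by omega), smul_zero]
      rw [e2, e3]
    have h5 : (fun m => (μ⁻¹) ^ m • (P ^ m) x) = fun m => ∑ j ∈ Finset.range k,
        ((μ⁻¹) ^ m * ((m.choose j : ℕ) : ℂ)) • (W ^ j) x := by
      funext m
      rw [h4, Finset.smul_sum]
      apply Finset.sum_congr rfl
      intro j _
      rw [smul_smul]
    rw [h5]
    have h6 : (0 : Fin n → ℂ) = ∑ j ∈ Finset.range k, (0 : ℂ) • (W ^ j) x := by simp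
    rw [h6]
    apply tendsto_finsetSum
    intro j _
    apply Tendsto.smul_const
    rw [tendsto_zero_iff_norm_tendsto_zero]
    have h7 : |‖μ‖⁻¹| < 1 := by
      rw [abs_of_pos (by positivity)]
      exact inv_lt_one_of_one_lt₀ hμ
    refine squeeze_zero (fun m => norm_nonneg _) (fun m => ?_)
      (tendsto_pow_const_mul_const_pow_of_abs_lt_one j h7)
    rw [norm_mul, norm_pow, norm_inv, mul_comm]
    refine mul_le_mul_of_nonneg_right ?_ (by positivity)
    rw [Complex.norm_natCast]
    exact_mod_cast Nat.choose_le_pow m j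

/-- a fixed vector with a backward orbit tending to zero vanishes -/
theorem fixed_zero (f : Module.End ℂ (Fin n → ℂ)) (x : Fin n → ℂ) (hx : x ∈ N f) (hf : f x = x) :
    x = 0 := by
  obtain ⟨y, hy, hy0⟩ := hx
  have hfm : ∀ m, (f ^ m) x = x := by
    intro m
    induction m with
    | zero => simp
    | succ m ih => rw [pow_succ, Module.End.mul_apply, hf, ih]
  have h1 : ∀ m, x - y m ∈ f.maxGenEigenspace 0 := by
    intro m
    rw [Module.End.mem_maxGenEigenspace]
    refine ⟨m, ?_⟩
    rw [zero_smul, sub_zero, map_sub, hfm, hy, sub_self]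
  have h2 : IsClosed ((f.maxGenEigenspace 0 : Submodule ℂ (Fin n → ℂ)) : Set (Fin n → ℂ)) :=
    Submodule.closed_of_finiteDimensional _
  have h3 : Tendsto (fun m => x - y m) atTop (𝓝 x) := by
    simpa using hy0.const_sub x
  have h4 : x ∈ f.maxGenEigenspace 0 := h2.mem_of_tendsto h3 (Eventually.of_forall h1)
  rw [Module.End.mem_maxGenEigenspace] at h4
  obtain ⟨k, hk⟩ := h4
  rw [zero_smul, sub_zero, hfm] at hk
  exact hk

/-- the number of eigenvalues outside the unit circle is at most the dimension of `N` -/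
theorem card_le (T : Matrix (Fin n) (Fin n) ℂ) :
    (T.charpoly.roots.filter fun z => 1 < ‖z‖).card ≤
      Module.finrank ℂ (N (Matrix.toLin' T)) := by
  classical
  set f : Module.End ℂ (Fin n → ℂ) := Matrix.toLin' T with hf
  set s := T.charpoly.roots.filter fun z => 1 < ‖z‖ with hs
  rw [← Multiset.toFinset_sum_count_eq s]
  have h1 : ∀ μ ∈ s.toFinset, s.count μ = Module.finrank ℂ (f.maxGenEigenspace μ) := by
    intro μ hμ
    rw [Multiset.mem_toFinset, hs, Multiset.mem_filter] at hμ
    rw [LinearMap.finrank_maxGenEigenspace_eq, hs, Multiset.count_filter, if_pos hμ.2,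
      Polynomial.count_roots, hf, Matrix.charpoly_toLin']
  rw [Finset.sum_congr rfl h1]
  -- direct sum
  have hind : iSupIndep (fun μ : s.toFinset => f.maxGenEigenspace (μ : ℂ)) :=
    (f.independent_maxGenEigenspace).comp Subtype.val_injective
  have hle : ∀ μ : s.toFinset, f.maxGenEigenspace (μ : ℂ) ≤ N f := by
    intro μ
    obtain ⟨μ, hμ⟩ := μ
    rw [Multiset.mem_toFinset, hs, Multiset.mem_filter] at hμ
    exact gen_le f μ hμ.2
  rw [← Finset.sum_coe_sort s.toFinset (fun μ => Module.finrank ℂ (f.maxGenEigenspace μ)),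
    ← Module.finrank_directSum]
  have hinj : Function.Injective
      (DirectSum.coeLinearMap (fun μ : s.toFinset => f.maxGenEigenspace (μ : ℂ))) :=
    hind.dfinsupp_lsum_injective
  rw [← LinearMap.finrank_range_of_inj hinj, DirectSum.range_coeLinearMap]
  exact Submodule.finrank_mono (iSup_le hle)

theorem main : S_CNT := by
  classical
  intro n r T B V hB hT hP hfix
  by_contra hcon
  push Not at hcon
  have h1 := hcon.trans_le (card_le T)
  set f : Module.End ℂ (Fin n → ℂ) := Matrix.toLin' T with hf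
  -- a nonzero vector of `N` killed by `V`
  obtain ⟨x, hxN, hx0, hVx⟩ : ∃ x ∈ N f, x ≠ 0 ∧ V *ᵥ x = 0 := by
    set g : N f →ₗ[ℂ] (Fin r → ℂ) := (Matrix.toLin' V).comp (N f).subtype with hg
    have h2 : LinearMap.ker g ≠ ⊥ := by
      apply LinearMap.ker_ne_bot_of_finrank_lt
      rw [Module.finrank_fin_fun]
      exact h1
    obtain ⟨x, hx, hx0⟩ := (Submodule.ne_bot_iff _).1 h2
    refine ⟨x.1, x.2, fun h => hx0 (Subtype.ext h), ?_⟩
    have h3 : g x = 0 := hx
    simpa [hg] using h3
  -- the form is not positive on `N`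
  set H : (Fin n → ℂ) → ℝ := fun x => (star x ⬝ᵥ B *ᵥ x).re with hH
  have hHT : ∀ (m : ℕ) (y : Fin n → ℂ), H ((f ^ m) y) ≤ H y := by
    intro m
    induction m with
    | zero => intro y; simp
    | succ m ih =>
      intro y
      rw [pow_succ, Module.End.mul_apply]
      refine (ih (f y)).trans ?_
      have := hT y
      simpa [hH, hf, Matrix.toLin'_apply] using this
  have hHc : Continuous H := by
    rw [hH]
    apply Complex.continuous_re.comp
    apply Continuous.dotProduct
    · exact continuous_star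
    · exact Continuous.matrix_mulVec continuous_const continuous_id
  have hHx : H x ≤ 0 := by
    obtain ⟨y, hy, hy0⟩ := hxN
    have h4 : Tendsto (fun m => H (y m)) atTop (𝓝 (H 0)) := (hHc.tendsto 0).comp hy0
    have h5 : H 0 = 0 := by simp [hH]
    rw [h5] at h4
    refine ge_of_tendsto h4 (Eventually.of_forall fun m => ?_)
    have := hHT m (y m)
    rwa [hy m] at this
  have hexp : star x ⬝ᵥ (B + Vᴴ * V) *ᵥ x = star x ⬝ᵥ B *ᵥ x := by
    rw [Matrix.add_mulVec, ← Matrix.mulVec_mulVec, hVx, Matrix.mulVec_zero, add_zero]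
  have h6 : star x ⬝ᵥ (B + Vᴴ * V) *ᵥ x = 0 := by
    have h7 := hP.dotProduct_mulVec_nonneg x
    rw [Complex.nonneg_iff] at h7
    apply Complex.ext
    · rw [Complex.zero_re]
      apply le_antisymm _ h7.1
      rw [hexp]; exact hHx
    · rw [Complex.zero_im]
      exact h7.2.symm
  rw [hP.dotProduct_mulVec_zero_iff] at h6
  have h8 : B *ᵥ x = 0 := by
    rwa [Matrix.add_mulVec, ← Matrix.mulVec_mulVec, hVx, Matrix.mulVec_zero, add_zero] at h6
  have h9 : f x = x := by
    rw [hf, Matrix.toLin'_apply]; exact hfix x h8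
  exact hx0 (fixed_zero f x hxN h9)

end Pool.Agent.H28.CXR.CNT
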