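import Pool.Agent.H28.CXR.Stm

set_option autoImplicit false

/-! # CXR-DET: `|det H| ≤ |det (H + i e)|` (helper71) -/

namespace Pool.Agent.H28.CXR.DET

open Matrix Polynomial Filter Topology

variable {n : ℕ}

theorem det_one (S : Matrix (Fin n) (Fin n) ℂ) (hS : S.IsHermitian) :
    ‖S.det‖ ≤ ‖(S + Complex.I • (1 : Matrix (Fin n) (Fin n) ℂ)).det‖ := by
  have h : ∀ z : ℂ, ‖(S + z • (1 : Matrix (Fin n) (Fin n) ℂ)).det‖ =
      ∏ i, ‖(hS.eigenvalues i : ℂ) + z‖ := by
    intro z
    have h1 := Matrix.eval_charpoly S (-z)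
    rw [hS.charpoly_eq, Polynomial.eval_prod] at h1
    have h2 : (Matrix.scalar (Fin n) (-z) - S) = -(S + z • (1 : Matrix (Fin n) (Fin n) ℂ)) := by
      rw [Matrix.scalar_apply, ← Matrix.smul_one_eq_diagonal, neg_smul]
      abel
    rw [h2, Matrix.det_neg] at h1
    have h3 := congrArg norm h1
    rw [norm_prod, norm_mul, norm_pow, norm_neg, norm_one, one_pow, one_mul] at h3
    rw [← h3]
    refine Finset.prod_congr rfl fun i _ => ?_
    simp only [Polynomial.eval_sub, Polynomial.eval_X, Polynomial.eval_C]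
    rw [← norm_neg]
    congr 1
    simp
  have h0 := h 0
  rw [zero_smul, add_zero] at h0
  rw [h0, h]
  refine Finset.prod_le_prod (fun _ _ => norm_nonneg _) fun i _ => ?_
  rw [add_zero, Complex.norm_real, Real.norm_eq_abs, Complex.norm_def, ← Real.sqrt_sq_eq_abs]
  apply Real.sqrt_le_sqrt
  simp [Complex.normSq_apply]
  nlinarith [sq_nonneg (hS.eigenvalues i)]

theorem det_pos (H : Matrix (Fin n) (Fin n) ℂ) (e : Fin n → ℝ) (hH : H.IsHermitian)
    (he : ∀ i, 0 < e i) :
    ‖H.det‖ ≤ ‖(H + diagonal fun i => Complex.I * (e i : ℂ)).det‖ := by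
  obtain ⟨Q, hQ⟩ : ∃ Q : Matrix (Fin n) (Fin n) ℂ,
    Q = diagonal fun i => ((Real.sqrt (e i) : ℝ) : ℂ) := ⟨_, rfl⟩
  obtain ⟨R, hR⟩ : ∃ R : Matrix (Fin n) (Fin n) ℂ,
    R = diagonal fun i => (((Real.sqrt (e i))⁻¹ : ℝ) : ℂ) := ⟨_, rfl⟩
  have hs : ∀ i, Real.sqrt (e i) ≠ 0 := fun i => (Real.sqrt_pos.2 (he i)).ne'
  have hQR : Q * R = 1 := by
    rw [hQ, hR, diagonal_mul_diagonal, ← diagonal_one]
    congr 1
    funext i
    rw [← Complex.ofReal_mul, mul_inv_cancel₀ (hs i), Complex.ofReal_one]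
  have hRQ : R * Q = 1 := by
    rw [hQ, hR, diagonal_mul_diagonal, ← diagonal_one]
    congr 1
    funext i
    rw [← Complex.ofReal_mul, inv_mul_cancel₀ (hs i), Complex.ofReal_one]
  have hRh : Rᴴ = R := by
    rw [hR, diagonal_conjTranspose]
    congr 1
    funext i
    simp
  obtain ⟨S, hS⟩ : ∃ S, S = R * H * R := ⟨_, rfl⟩
  have hSh : S.IsHermitian := by
    unfold Matrix.IsHermitian
    rw [hS, conjTranspose_mul, conjTranspose_mul, hRh, hH.eq, Matrix.mul_assoc]
  have e1 : H = Q * S * Q := by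
    rw [hS]
    calc H = (Q * R) * H * (R * Q) := by rw [hQR, hRQ, Matrix.one_mul, Matrix.mul_one]
      _ = Q * (R * H * R) * Q := by simp only [Matrix.mul_assoc]
  have e2 : (diagonal fun i => Complex.I * (e i : ℂ)) =
      Q * (Complex.I • (1 : Matrix (Fin n) (Fin n) ℂ)) * Q := by
    rw [Matrix.mul_smul, Matrix.mul_one, Matrix.smul_mul, hQ, diagonal_mul_diagonal,
      ← diagonal_smul]
    congr 1
    funext i
    simp only [Pi.smul_apply, smul_eq_mul]
    rw [← Complex.ofReal_mul, Real.mul_self_sqrt (he i).le]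
  have e3 : H + (diagonal fun i => Complex.I * (e i : ℂ)) =
      Q * (S + Complex.I • (1 : Matrix (Fin n) (Fin n) ℂ)) * Q := by
    rw [e2, Matrix.mul_add, Matrix.add_mul, ← e1]
  rw [e3]
  conv_lhs => rw [e1]
  rw [det_mul, det_mul, det_mul, det_mul, norm_mul, norm_mul, norm_mul, norm_mul]
  gcongr
  exact det_one S hSh

theorem main : S_DET := by
  intro n H e hH he
  have h1 : Tendsto (fun ε : ℝ => ‖(H + diagonal fun i => Complex.I * ((e i + ε : ℝ) : ℂ)).det‖)
      (𝓝[>] 0) (𝓝 ‖(H + diagonal fun i => Complex.I * (e i : ℂ)).det‖) := by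
    have hc : Continuous fun ε : ℝ =>
        ‖(H + diagonal fun i => Complex.I * ((e i + ε : ℝ) : ℂ)).det‖ := by
      refine continuous_norm.comp (Continuous.matrix_det ?_)
      refine continuous_const.add (Continuous.matrix_diagonal ?_)
      refine continuous_pi fun i => ?_
      fun_prop
    have h2 := hc.tendsto 0
    simp only [add_zero] at h2
    exact h2.mono_left nhdsWithin_le_nhds
  refine ge_of_tendsto h1 ?_
  filter_upwards [self_mem_nhdsWithin] with ε hε
  exact det_pos H (fun i => e i + ε) hH fun i => by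
    have : 0 < ε := hε
    linarith [he i]

end Pool.Agent.H28.CXR.DET
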