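import Pool.Agent.H28.CXR.BR

/-! DIH. -/

set_option autoImplicit false

theorem Pool.Agent.H28.CXR.DIH.main : Pool.Agent.H28.CXR.S_DIH := Pool.Agent.H28.CXR.BR.main
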