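import Pool.Agent.H28.CXR.Stm

/-! FOLD: the Coxeter type operator as a product of partial reflections. -/

set_option autoImplicit false

namespace Pool.Agent.H28.CXR.FOLD

open Matrix

theorem main : S_FOLD := by
  intro n A hA e he x
  obtain ⟨W, hWd⟩ : ∃ W : ℕ → (Fin n → ℝ), ∀ k, W k =
      ((List.finRange n).drop k).foldr (fun i z => pref A (1 / (1 + e i)) i z) x :=
    ⟨_, fun _ => rfl⟩
  have hWn : W n = x := by
    rw [hWd, List.drop_of_length_le (by rw [List.length_finRange])]
    rfl
  have hstep : ∀ i : Fin n, W i = pref A (1 / (1 + e i)) i (W (i + 1)) := by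
    intro i
    rw [hWd, hWd, List.drop_eq_getElem_cons (by rw [List.length_finRange]; exact i.2),
      List.foldr_cons]
    congr 1
    · simp
    · simp
  have hne : ∀ (k : ℕ) (hk : k < n) (j : Fin n), (j : ℕ) ≠ k → W k j = W (k + 1) j := by
    intro k hk j hj
    have h1 := congrFun (hstep ⟨k, hk⟩) j
    rw [h1]
    simp only [pref, Pi.sub_apply]
    rw [Pi.single_eq_of_ne (fun h => hj (by rw [h])), sub_zero]
  have hlow : ∀ (m k : ℕ), k + m = n → ∀ j : Fin n, (j : ℕ) < k → W k j = x j := by
    intro m
    induction m with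
    | zero =>
      intro k hk j hj
      rw [show k = n by omega, hWn]
    | succ m ih =>
      intro k hk j hj
      rw [hne k (by omega) j (by omega)]
      exact ih (k + 1) (by omega) j (by omega)
  have hhigh : ∀ (k : ℕ), k ≤ n → ∀ j : Fin n, k ≤ (j : ℕ) → W k j = W 0 j := by
    intro k
    induction k with
    | zero => intro _ j _; rfl
    | succ k ih =>
      intro hk j hj
      rw [← hne k (by omega) j (by omega)]
      exact ih (by omega) j (by omega)
  -- the linear system
  have hsys : (up A + diagonal e) *ᵥ (W 0) = -((lo A - diagonal e) *ᵥ x) := by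
    funext i
    rw [Pi.neg_apply, eq_neg_iff_add_eq_zero]
    have h1 : W 0 i = x i - (1 / (1 + e i)) * (A *ᵥ (W (i + 1))) i := by
      rw [← hhigh i i.2.le i le_rfl]
      have h2 := congrFun (hstep i) i
      rw [h2]
      simp only [pref, Pi.sub_apply]
      rw [Pi.single_eq_same, hlow (n - (i + 1)) (i + 1) (by omega) i (by omega)]
    have h3 : ((up A + diagonal e) *ᵥ (W 0)) i + ((lo A - diagonal e) *ᵥ x) i =
        (A *ᵥ (W (i + 1))) i + (1 + e i) * (W 0 i - x i) := by
      have h4 : (1 + e i) * (W 0 i - x i) = ∑ j, if j = i then (1 + e i) * (W 0 i - x i) else 0 := by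
        rw [Finset.sum_ite_eq' Finset.univ i (fun _ => (1 + e i) * (W 0 i - x i)),
          if_pos (Finset.mem_univ i)]
      rw [h4]
      simp only [mulVec, dotProduct]
      rw [← Finset.sum_add_distrib, ← Finset.sum_add_distrib]
      refine Finset.sum_congr rfl fun j _ => ?_
      simp only [Matrix.add_apply, Matrix.sub_apply, up, lo, Matrix.of_apply]
      rcases lt_trichotomy i j with hij | hij | hij
      · rw [if_pos hij, if_neg (not_lt_of_gt hij), if_neg (ne_of_lt hij), if_neg (ne_of_gt hij),
          diagonal_apply_ne _ (ne_of_lt hij), hhigh (i + 1) i.2 j hij]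
        ring
      · subst hij
        rw [hA, hlow (n - (i + 1)) (i + 1) (by omega) i (by omega)]
        simp only [lt_irrefl, if_true, if_false, diagonal_apply_eq]
        ring
      · rw [if_neg (not_lt_of_gt hij), if_pos hij, if_neg (ne_of_gt hij), if_neg (ne_of_lt hij),
          diagonal_apply_ne _ (ne_of_gt hij), hlow (n - (i + 1)) (i + 1) (by omega) j
            (by have : (j : ℕ) < i := hij
                omega)]
        ring
    rw [h3, h1]
    have h5 : (1 + e i) ≠ 0 := by
      have := he i
      positivity
    field_simp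
    ring
  have hdet : (up A + diagonal e).det = ∏ i, (1 + e i) := by
    rw [det_of_upperTriangular]
    · refine Finset.prod_congr rfl fun i _ => ?_
      simp [up]
    · intro i j hij
      have h1 : j < i := hij
      simp only [Matrix.add_apply, up, Matrix.of_apply]
      rw [if_neg (not_lt_of_gt h1), if_neg (ne_of_gt h1), diagonal_apply_ne _ (ne_of_gt h1),
        add_zero]
  have hu : IsUnit (up A + diagonal e).det := by
    rw [hdet, isUnit_iff_ne_zero]
    refine Finset.prod_ne_zero_iff.2 fun i _ => ?_
    have := he i
    positivity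
  have hfin : (List.finRange n).foldr (fun i z => pref A (1 / (1 + e i)) i z) x = W 0 := by
    rw [hWd, List.drop_zero]
  rw [hfin, opT, neg_mulVec, ← mulVec_mulVec, ← mulVec_neg, ← hsys, mulVec_mulVec,
    nonsing_inv_mul _ hu, one_mulVec]

end Pool.Agent.H28.CXR.FOLD
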