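import Pool.Agent.H28.CXR.POS

/-! ITER: powers of the operator `opT A e` and antidominant nonnegative vectors. -/

set_option autoImplicit false

namespace Pool.Agent.H28.CXR.ITER

open Matrix

variable {n : ℕ}

/-- the reflection as a linear map -/
def reflL (A : Matrix (Fin n) (Fin n) ℝ) (i : Fin n) : (Fin n → ℝ) →ₗ[ℝ] (Fin n → ℝ) where
  toFun := refl A i
  map_add' x y := by
    have h := POS.refl_add A i x y 1
    rw [one_smul, one_smul] at h
    exact h
  map_smul' c x := by
    have h0 : refl A i (0 : Fin n → ℝ) = 0 := by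
      funext j
      simp [refl]
    have h := POS.refl_add A i 0 x c
    rw [zero_add, h0, zero_add] at h
    exact h

theorem main (hpos : S_POS) (hfold : S_FOLD) : S_ITER := by
  intro n A hA e he y hy hAy
  obtain ⟨C, hC⟩ : ∃ C : Set (Fin n → ℝ), C = convexHull ℝ (Set.range fun l => act A l y) :=
    ⟨_, rfl⟩
  have hconv : Convex ℝ C := by rw [hC]; exact convex_convexHull ℝ _
  have hrefl : ∀ (i : Fin n) (z : Fin n → ℝ), z ∈ C → refl A i z ∈ C := by
    intro i z hz
    have h1 : (reflL A i) '' C ⊆ C := by
      rw [hC, LinearMap.image_convexHull]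
      apply convexHull_min _ (convex_convexHull ℝ _)
      rintro _ ⟨_, ⟨l, rfl⟩, rfl⟩
      exact subset_convexHull ℝ _ ⟨i :: l, rfl⟩
    exact h1 ⟨z, hz, rfl⟩
  have hpref : ∀ (i : Fin n) (z : Fin n → ℝ), z ∈ C → pref A (1 / (1 + e i)) i z ∈ C := by
    intro i z hz
    have h0 := he i
    have ht0 : 0 ≤ 1 / (1 + e i) := by positivity
    have ht1 : 1 / (1 + e i) ≤ 1 := by
      rw [div_le_one (by linarith)]
      linarith
    have h1 := hconv hz (hrefl i z hz) (sub_nonneg.2 ht1) ht0 (by ring)
    have h2 : pref A (1 / (1 + e i)) i z =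
        (1 - 1 / (1 + e i)) • z + (1 / (1 + e i)) • refl A i z := by
      funext j
      simp only [pref, refl, Pi.sub_apply, Pi.add_apply, Pi.smul_apply, smul_eq_mul]
      by_cases h : j = i
      · subst h
        simp only [Pi.single_eq_same]
        ring
      · simp only [Pi.single_eq_of_ne h]
        ring
    rw [h2]
    exact h1
  have hT : ∀ z : Fin n → ℝ, z ∈ C → opT A e *ᵥ z ∈ C := by
    intro z hz
    rw [hfold n A hA.diag e he z]
    have h1 : ∀ l : List (Fin n), l.foldr (fun i z => pref A (1 / (1 + e i)) i z) z ∈ C := by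
      intro l
      induction l with
      | nil => exact hz
      | cons i l ih => exact hpref i _ ih
    exact h1 _
  have hm : ∀ m : ℕ, (opT A e) ^ m *ᵥ y ∈ C := by
    intro m
    induction m with
    | zero =>
      rw [pow_zero, one_mulVec, hC]
      exact subset_convexHull ℝ _ ⟨[], rfl⟩
    | succ m ih =>
      rw [pow_succ', ← mulVec_mulVec]
      exact hT _ ih
  have hge : C ⊆ {z : Fin n → ℝ | ∀ i, y i ≤ z i} := by
    rw [hC]
    apply convexHull_min
    · rintro _ ⟨l, rfl⟩ i
      exact hpos n A hA l y hy hAy i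
    · intro z hz w hw a b ha hb hab i
      have h1 := hz i
      have h2 := hw i
      simp only [Pi.add_apply, Pi.smul_apply, smul_eq_mul]
      have h3 : y i = a * y i + b * y i := by rw [← add_mul, hab, one_mul]
      rw [h3]
      exact add_le_add (mul_le_mul_of_nonneg_left h1 ha) (mul_le_mul_of_nonneg_left h2 hb)
  intro m i
  exact (hy i).trans (hge (hm m) i)

end Pool.Agent.H28.CXR.ITER
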