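import Pool.Agent.H28.CXR.Stm

/-! PAR: parity of the length. -/

set_option autoImplicit false

namespace Pool.Agent.H28.CXR.PAR

open Matrix

theorem main : S_PAR := by
  intro n A hA l l' h
  obtain ⟨G, hGd⟩ : ∃ G : Fin n → Matrix (Fin n) (Fin n) ℝ, ∀ i, G i =
      1 + replicateCol Unit (-(Pi.single i 1 : Fin n → ℝ)) * replicateRow Unit (A i) :=
    ⟨_, fun _ => rfl⟩
  have hG : ∀ i x, refl A i x = G i *ᵥ x := by
    intro i x
    funext j
    rw [hGd, add_mulVec, one_mulVec, ← mulVec_mulVec]
    simp only [refl, Pi.sub_apply, Pi.add_apply]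
    rw [sub_eq_add_neg]
    congr 1
    simp only [mulVec, dotProduct, replicateCol_apply, replicateRow_apply, Finset.univ_unique,
      Finset.sum_singleton, Pi.neg_apply, Pi.single_apply]
    by_cases hj : j = i
    · subst hj
      simp
    · rw [if_neg hj, if_neg hj]
      simp
  have hdet : ∀ i, (G i).det = -1 := by
    intro i
    rw [hGd, det_one_add_replicateCol_mul_replicateRow, dotProduct_neg, dotProduct_single, hA]
    norm_num
  have hM : ∀ (l : List (Fin n)) x, act A l x = (l.map G).prod *ᵥ x := by
    intro l
    induction l with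
    | nil => intro x; simp [act]
    | cons i l ih =>
      intro x
      rw [List.map_cons, List.prod_cons, ← mulVec_mulVec, ← ih, ← hG]
      rfl
  have hd : ∀ l : List (Fin n), ((l.map G).prod).det = (-1) ^ l.length := by
    intro l
    induction l with
    | nil => simp
    | cons i l ih =>
      rw [List.map_cons, List.prod_cons, det_mul, ih, hdet, List.length_cons, pow_succ]
      ring
  have hEq : (l.map G).prod = (l'.map G).prod := by
    apply Matrix.mulVec_injective
    funext x
    rw [← hM, ← hM]
    exact h x
  have h2 : (-1 : ℝ) ^ l.length = (-1) ^ l'.length := by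
    rw [← hd, ← hd, hEq]
  rcases Nat.even_or_odd l.length with h3 | h3 <;> rcases Nat.even_or_odd l'.length with h4 | h4
  · rw [Nat.even_iff] at h3 h4
    rw [h3, h4]
  · rw [h3.neg_one_pow, h4.neg_one_pow] at h2
    norm_num at h2
  · rw [h3.neg_one_pow, h4.neg_one_pow] at h2
    norm_num at h2
  · rw [Nat.odd_iff] at h3 h4
    rw [h3, h4]

end Pool.Agent.H28.CXR.PAR
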