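import Pool.Agent.H28.CXR.Stm

/-! POS: antidominant nonnegative vectors. -/

set_option autoImplicit false

namespace Pool.Agent.H28.CXR.POS

open Matrix

variable {n : ℕ}

theorem refl_add (A : Matrix (Fin n) (Fin n) ℝ) (i : Fin n) (x y : Fin n → ℝ) (c : ℝ) :
    refl A i (x + c • y) = refl A i x + c • refl A i y := by
  funext j
  simp only [refl, Pi.sub_apply, Pi.add_apply, Pi.smul_apply, smul_eq_mul, mulVec_add,
    mulVec_smul]
  by_cases h : j = i
  · subst h
    simp only [Pi.single_eq_same]
    ring
  · simp only [Pi.single_eq_of_ne h]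
    ring

theorem act_add (A : Matrix (Fin n) (Fin n) ℝ) (l : List (Fin n)) (x y : Fin n → ℝ) (c : ℝ) :
    act A l (x + c • y) = act A l x + c • act A l y := by
  induction l with
  | nil => rfl
  | cons i l ih => simp only [act]; rw [ih, refl_add]

theorem act_append (A : Matrix (Fin n) (Fin n) ℝ) (l l' : List (Fin n)) (x : Fin n → ℝ) :
    act A (l ++ l') x = act A l (act A l' x) := by
  induction l with
  | nil => rfl
  | cons i l ih => simp only [List.cons_append, act]; rw [ih]

theorem same_append {A : Matrix (Fin n) (Fin n) ℝ} {l l' m m' : List (Fin n)} (h : Same A l l')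
    (h' : Same A m m') : Same A (l ++ m) (l' ++ m') := by
  intro x
  rw [act_append, act_append, h' x, h]

theorem reduced_prefix {A : Matrix (Fin n) (Fin n) ℝ} {l m : List (Fin n)}
    (h : Reduced A (l ++ m)) : Reduced A l := by
  intro l' hl'
  have h1 := h (l' ++ m) (same_append hl' (fun _ => rfl))
  rw [List.length_append, List.length_append] at h1
  omega

theorem reduced_suffix {A : Matrix (Fin n) (Fin n) ℝ} {l m : List (Fin n)}
    (h : Reduced A (l ++ m)) : Reduced A m := by
  intro l' hl'
  have h1 := h (l ++ l') (same_append (fun _ => rfl) hl')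
  rw [List.length_append, List.length_append] at h1
  omega

theorem exists_reduced (A : Matrix (Fin n) (Fin n) ℝ) (l : List (Fin n)) :
    ∃ l', Same A l l' ∧ Reduced A l' := by
  classical
  have hex : ∃ k, ∃ l', Same A l l' ∧ l'.length = k := ⟨_, l, fun _ => rfl, rfl⟩
  obtain ⟨l', h1, h2⟩ := Nat.find_spec hex
  refine ⟨l', h1, fun m hm => ?_⟩
  rw [h2]
  exact Nat.find_min' hex ⟨m, fun x => (h1 x).trans (hm x), rfl⟩

theorem main (hroot : S_ROOT) : S_POS := by
  intro n A hA l y hy hAy
  have key : ∀ l : List (Fin n), Reduced A l → ∀ i, y i ≤ act A l y i := by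
    intro l
    induction l using List.reverseRecOn with
    | nil => intro _ i; exact le_rfl
    | append_singleton l0 j ih =>
      intro hred i
      have h1 : act A (l0 ++ [j]) y = act A l0 y + (-((A *ᵥ y) j)) • act A l0 (Pi.single j 1) := by
        rw [act_append]
        have h2 : act A [j] y = y + (-((A *ᵥ y) j)) • (Pi.single j 1 : Fin n → ℝ) := by
          simp only [act]
          funext k
          simp only [refl, Pi.sub_apply, Pi.add_apply, Pi.smul_apply, smul_eq_mul]
          by_cases h : k = j
          · subst h
            simp only [Pi.single_eq_same]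
            ring
          · simp only [Pi.single_eq_of_ne h]
            ring
        rw [h2, act_add]
      rw [h1, Pi.add_apply, Pi.smul_apply, smul_eq_mul]
      have h3 := ih (reduced_prefix hred) i
      have h4 := hroot n A hA l0 j hred i
      have h5 := hAy j
      nlinarith [mul_nonneg (neg_nonneg.2 h5) h4]
  obtain ⟨l', h1, h2⟩ := exists_reduced A l
  intro i
  rw [h1 y]
  exact key l' h2 i

end Pool.Agent.H28.CXR.POS
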