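import Pool.Agent.H28.CXR.Stm

/-! CXR-PRI (helper51): a theorem of Pringsheim type for powers of a matrix. -/

set_option autoImplicit false

namespace Pool.Agent.H28.CXR.PRI

open Matrix Polynomial Filter Topology

attribute [local instance] Matrix.linftyOpNormedRing Matrix.linftyOpNormedAlgebra

variable {n : ℕ}

theorem tz_iff (F : ℕ → Matrix (Fin n) (Fin n) ℝ) : Tendsto F atTop (𝓝 0) ↔
    Tendsto (fun m => ‖F m‖) atTop (𝓝 0) := by
  exact tendsto_zero_iff_norm_tendsto_zero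

theorem tz_pi (F : ℕ → Matrix (Fin n) (Fin n) ℝ)
    (h : ∀ i j, Tendsto (fun m => F m i j) atTop (𝓝 0)) : Tendsto F atTop (𝓝 0) := by
  have : Tendsto (fun m i j => F m i j) atTop (𝓝 (fun _ _ => 0)) := by
    rw [tendsto_pi_nhds]
    intro i
    rw [tendsto_pi_nhds]
    intro j
    exact h i j
  exact this

/-- the powers of `T / s` tend to zero -/
def P (T : Matrix (Fin n) (Fin n) ℝ) (s : ℝ) : Prop :=
  Tendsto (fun m => (s⁻¹ • T) ^ m) atTop (𝓝 0)

theorem P_of_norm {T : Matrix (Fin n) (Fin n) ℝ} {s : ℝ} (hs : 0 < s) (m₀ : ℕ) (hm : 1 ≤ m₀)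
    (h : ‖T ^ m₀‖ < s ^ m₀) : P T s := by
  unfold P
  set A := s⁻¹ • T with hA
  have hA0 : ‖A ^ m₀‖ < 1 := by
    rw [hA, _root_.smul_pow, norm_smul, norm_pow, norm_inv, Real.norm_of_nonneg hs.le, inv_pow,
      inv_mul_lt_iff₀ (by positivity), mul_one]
    exact h
  rw [tz_iff]
  set C := ∑ r ∈ Finset.range m₀, ‖A ^ r‖ with hC
  have h1 : Tendsto (fun m : ℕ => ‖A ^ m₀‖ ^ (m / m₀) * C) atTop (𝓝 (0 * C)) := by
    apply Tendsto.mul_const
    exact (tendsto_pow_atTop_nhds_zero_of_lt_one (norm_nonneg _) hA0).comp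
      (Nat.tendsto_div_const_atTop (by omega))
  rw [zero_mul] at h1
  refine squeeze_zero (fun m => norm_nonneg _) (fun m => ?_) h1
  have h2 : A ^ m = (A ^ m₀) ^ (m / m₀) * A ^ (m % m₀) := by
    rw [← pow_mul, ← pow_add, Nat.div_add_mod]
  rw [h2]
  refine (norm_mul_le _ _).trans ?_
  have h3 : ‖A ^ (m % m₀)‖ ≤ C := by
    rw [hC]
    exact Finset.single_le_sum (f := fun r => ‖A ^ r‖) (fun _ _ => norm_nonneg _)
      (Finset.mem_range.2 (Nat.mod_lt _ (by omega)))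
  rcases Nat.eq_zero_or_pos (m / m₀) with h0 | h0
  · rw [h0, pow_zero, pow_zero]
    have h4 : ‖(1 : Matrix (Fin n) (Fin n) ℝ) * A ^ (m % m₀)‖ ≤ C := by rw [one_mul]; exact h3
    rcases Nat.eq_zero_or_pos n with hn | hn
    · subst hn
      have : ‖(1 : Matrix (Fin 0) (Fin 0) ℝ)‖ * ‖A ^ (m % m₀)‖ = 0 := by
        have : A ^ (m % m₀) = 0 := Subsingleton.elim _ _
        rw [this, norm_zero, mul_zero]
      rw [this, one_mul]
      exact le_trans (norm_nonneg _) h3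
    · have : Nonempty (Fin n) := ⟨⟨0, hn⟩⟩
      have h5 : ‖(1 : Matrix (Fin n) (Fin n) ℝ)‖ = 1 := norm_one
      rw [h5, one_mul, one_mul]
      exact h3
  · exact mul_le_mul (norm_pow_le' _ h0) h3 (norm_nonneg _) (by positivity)

theorem P_up {T : Matrix (Fin n) (Fin n) ℝ} {s s' : ℝ} (hs : 0 < s) (hss : s ≤ s')
    (h : P T s) : P T s' := by
  unfold P at *
  rw [tz_iff] at *
  refine squeeze_zero (fun m => norm_nonneg _) (fun m => ?_) h
  have h1 : s'⁻¹ • T = (s / s') • (s⁻¹ • T) := by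
    rw [smul_smul]
    congr 1
    field_simp
  rw [h1, _root_.smul_pow, norm_smul, norm_pow]
  have hs' : 0 < s' := hs.trans_le hss
  have h2 : ‖s / s'‖ ≤ 1 := by
    rw [Real.norm_of_nonneg (by positivity), div_le_one hs']; exact hss
  exact mul_le_of_le_one_left (norm_nonneg _) (pow_le_one₀ (norm_nonneg _) h2)

/-- partial sums of the resolvent -/
noncomputable def S (T : Matrix (Fin n) (Fin n) ℝ) (M : ℕ) (s : ℝ) :
    Matrix (Fin n) (Fin n) ℝ :=
  s⁻¹ • ∑ m ∈ Finset.range M, (s⁻¹ • T) ^ m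

theorem S_mul (T : Matrix (Fin n) (Fin n) ℝ) (M : ℕ) {s : ℝ} (hs : 0 < s) :
    (s • (1 : Matrix (Fin n) (Fin n) ℝ) - T) * S T M s = 1 - (s⁻¹ • T) ^ M := by
  have h1 : s • (1 : Matrix (Fin n) (Fin n) ℝ) - T = s • (1 - s⁻¹ • T) := by
    rw [smul_sub, smul_smul, mul_inv_cancel₀ hs.ne', one_smul]
  rw [h1, S, Matrix.smul_mul, Matrix.mul_smul, smul_smul, mul_inv_cancel₀ hs.ne', one_smul,
    mul_neg_geom_sum]

/-- the resolvent -/
noncomputable def R (T : Matrix (Fin n) (Fin n) ℝ) (s : ℝ) : Matrix (Fin n) (Fin n) ℝ :=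
  (s • (1 : Matrix (Fin n) (Fin n) ℝ) - T)⁻¹

theorem S_eq (T : Matrix (Fin n) (Fin n) ℝ) (M : ℕ) {s : ℝ} (hs : 0 < s)
    (hdet : (s • (1 : Matrix (Fin n) (Fin n) ℝ) - T).det ≠ 0) :
    S T M s = R T s * (1 - (s⁻¹ • T) ^ M) := by
  rw [← S_mul T M hs, ← Matrix.mul_assoc, R, Matrix.nonsing_inv_mul _ (isUnit_iff_ne_zero.2 hdet),
    Matrix.one_mul]

theorem S_tendsto {T : Matrix (Fin n) (Fin n) ℝ} {s : ℝ} (hs : 0 < s)
    (hdet : (s • (1 : Matrix (Fin n) (Fin n) ℝ) - T).det ≠ 0) (h : P T s) :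
    Tendsto (fun M => S T M s) atTop (𝓝 (R T s)) := by
  have h1 : (fun M => S T M s) = fun M => R T s * (1 - (s⁻¹ • T) ^ M) := by
    funext M; exact S_eq T M hs hdet
  rw [h1]
  have h2 : Tendsto (fun M => R T s * (1 - (s⁻¹ • T) ^ M)) atTop (𝓝 (R T s * (1 - 0))) :=
    (h.const_sub 1).const_mul _
  simpa using h2

theorem R_cont (T : Matrix (Fin n) (Fin n) ℝ) {s : ℝ}
    (hdet : (s • (1 : Matrix (Fin n) (Fin n) ℝ) - T).det ≠ 0) :
    ContinuousAt (fun s => R T s) s := by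
  have h1 : (fun s => R T s) = fun s => ((s • (1 : Matrix (Fin n) (Fin n) ℝ) - T).det)⁻¹ •
      (s • (1 : Matrix (Fin n) (Fin n) ℝ) - T).adjugate := by
    funext s
    rw [R, Matrix.inv_def, Ring.inverse_eq_inv]
  rw [h1]
  have hc : Continuous fun s : ℝ => s • (1 : Matrix (Fin n) (Fin n) ℝ) - T := by fun_prop
  exact (hc.matrix_det.continuousAt.inv₀ hdet).smul hc.matrix_adjugate.continuousAt

theorem S_cont (T : Matrix (Fin n) (Fin n) ℝ) (M : ℕ) {s : ℝ} (hs : 0 < s) :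
    ContinuousAt (fun s => S T M s) s := by
  unfold S
  have h1 : ContinuousAt (fun s : ℝ => s⁻¹) s := continuousAt_inv₀ hs.ne'
  apply h1.smul
  apply tendsto_finsetSum
  intro m _
  exact (h1.smul continuousAt_const).pow m

/-- closedness -/
theorem P_closed {T : Matrix (Fin n) (Fin n) ℝ} {κ ε : ℝ} {y : Fin n → ℝ} (hκ : 0 ≤ κ)
    (hε : 0 < ε) (hdet : ∀ s : ℝ, κ < s → (s • (1 : Matrix (Fin n) (Fin n) ℝ) - T).det ≠ 0)
    (h1 : ∀ (m : ℕ) (i : Fin n), 0 ≤ (T ^ m *ᵥ y) i)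
    (h2 : ∀ (j : Fin n) (m : ℕ) (i : Fin n), 0 ≤ (T ^ m *ᵥ (y + Pi.single j ε)) i)
    {s₀ : ℝ} (hs₀ : κ < s₀) (h : ∀ s, s₀ < s → P T s) : P T s₀ := by
  have hs0 : 0 < s₀ := hκ.trans_lt hs₀
  -- the key estimate
  have key : ∀ v : Fin n → ℝ, (∀ (m : ℕ) (i : Fin n), 0 ≤ (T ^ m *ᵥ v) i) → ∀ i,
      Tendsto (fun m => (((s₀⁻¹ • T) ^ m) *ᵥ v) i) atTop (𝓝 0) := by
    intro v hv i
    have hpos : ∀ s : ℝ, 0 < s → ∀ m, 0 ≤ (((s⁻¹ • T) ^ m) *ᵥ v) i := by
      intro s hs m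
      rw [_root_.smul_pow, Matrix.smul_mulVec, Pi.smul_apply, smul_eq_mul]
      exact mul_nonneg (by positivity) (hv m i)
    have hSsum : ∀ (s : ℝ) (M : ℕ), (S T M s *ᵥ v) i =
        s⁻¹ * ∑ m ∈ Finset.range M, (((s⁻¹ • T) ^ m) *ᵥ v) i := by
      intro s M
      rw [S, Matrix.smul_mulVec, Pi.smul_apply, smul_eq_mul, Matrix.sum_mulVec, Finset.sum_apply]
    have hle : ∀ s : ℝ, s₀ < s → ∀ M, (S T M s *ᵥ v) i ≤ (R T s *ᵥ v) i := by
      intro s hs M
      have hs' : 0 < s := hs0.trans hs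
      have hmono : Monotone fun M => (S T M s *ᵥ v) i := by
        apply monotone_nat_of_le_succ
        intro M
        rw [hSsum, hSsum, Finset.sum_range_succ]
        have := hpos s hs' M
        have h3 : 0 < s⁻¹ := inv_pos.2 hs'
        nlinarith [mul_nonneg h3.le this]
      have hlim : Tendsto (fun M => (S T M s *ᵥ v) i) atTop (𝓝 ((R T s *ᵥ v) i)) := by
        have h3 := S_tendsto hs' (hdet s (hs₀.trans hs)) (h s hs)
        have h4 : Continuous fun A : Matrix (Fin n) (Fin n) ℝ => (A *ᵥ v) i := by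
          exact (continuous_apply i).comp (Continuous.matrix_mulVec continuous_id continuous_const)
        exact (h4.tendsto _).comp h3
      exact hmono.ge_of_tendsto hlim M
    have hle0 : ∀ M, (S T M s₀ *ᵥ v) i ≤ (R T s₀ *ᵥ v) i := by
      intro M
      have h4 : Continuous fun A : Matrix (Fin n) (Fin n) ℝ => (A *ᵥ v) i := by
        exact (continuous_apply i).comp (Continuous.matrix_mulVec continuous_id continuous_const)
      have h5 : Tendsto (fun s => (S T M s *ᵥ v) i) (𝓝[>] s₀) (𝓝 ((S T M s₀ *ᵥ v) i)) :=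
        ((h4.tendsto _).comp (S_cont T M hs0)).mono_left nhdsWithin_le_nhds
      have h6 : Tendsto (fun s => (R T s *ᵥ v) i) (𝓝[>] s₀) (𝓝 ((R T s₀ *ᵥ v) i)) :=
        ((h4.tendsto _).comp (R_cont T (hdet s₀ hs₀))).mono_left nhdsWithin_le_nhds
      refine le_of_tendsto_of_tendsto h5 h6 ?_
      filter_upwards [self_mem_nhdsWithin] with s hs
      exact hle s hs M
    have hsummable : Summable fun m => (((s₀⁻¹ • T) ^ m) *ᵥ v) i := by
      apply summable_of_sum_range_le (c := s₀ * (R T s₀ *ᵥ v) i) (hpos s₀ hs0)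
      intro M
      have h7 := hle0 M
      rw [hSsum, inv_mul_le_iff₀ hs0] at h7
      exact h7
    exact hsummable.tendsto_atTop_zero
  unfold P
  apply tz_pi
  intro i j
  have h3 := (key _ (h2 j) i).sub (key _ h1 i)
  have h4 := h3.const_mul ε⁻¹
  rw [sub_zero, mul_zero] at h4
  refine h4.congr fun m => ?_
  rw [Matrix.mulVec_add, Pi.add_apply, add_sub_cancel_left, Matrix.mulVec_single]
  simp
  field_simp

theorem main : S_PRI := by
  intro n T κ ε y hκ hε hdet h1 h2 z x hx hTx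
  -- all powers tend to zero
  have hP : ∀ s, κ < s → P T s := by
    by_contra hcon
    push Not at hcon
    obtain ⟨s₀, hs₀, hnP⟩ := hcon
    have hs0 : 0 < s₀ := hκ.trans_lt hs₀
    set G : Set ℝ := {s | κ < s ∧ P T s} with hG
    have hne : G.Nonempty := by
      refine ⟨max κ ‖T‖ + 1, ?_, ?_⟩
      · have := le_max_left κ ‖T‖; linarith
      · have h3 := le_max_right κ ‖T‖
        have h4 := norm_nonneg T
        apply P_of_norm (by linarith) 1 le_rfl
        rw [pow_one, pow_one]; linarith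
    have hlow : ∀ s ∈ G, s₀ < s := by
      intro s hs
      by_contra hcon
      push Not at hcon
      exact hnP (P_up (hκ.trans_lt hs.1) hcon hs.2)
    have hbdd : BddBelow G := ⟨s₀, fun s hs => (hlow s hs).le⟩
    have h3 : s₀ ≤ sInf G := le_csInf hne fun s hs => (hlow s hs).le
    have hκs : κ < sInf G := hs₀.trans_le h3
    have h4 : ∀ s, sInf G < s → P T s := by
      intro s hs
      obtain ⟨s', hs', hss'⟩ := exists_lt_of_csInf_lt hne hs
      exact P_up (hκ.trans_lt hs'.1) hss'.le hs'.2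
    have h5 := P_closed hκ hε hdet h1 h2 hκs h4
    -- openness
    set t := sInf G with ht
    have ht0 : 0 < t := hκ.trans_lt hκs
    have h6 : ∃ m₀, 1 ≤ m₀ ∧ ‖T ^ m₀‖ < t ^ m₀ := by
      have h7 := ((tz_iff _).1 h5).eventually_lt_const
        (show (0 : ℝ) < 1 by norm_num)
      obtain ⟨m₀, h8, h9⟩ := (h7.and (eventually_ge_atTop 1)).exists
      refine ⟨m₀, h9, ?_⟩
      rw [_root_.smul_pow, norm_smul, norm_pow, norm_inv, Real.norm_of_nonneg ht0.le, inv_pow,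
        inv_mul_lt_iff₀ (by positivity), mul_one] at h8
      exact h8
    obtain ⟨m₀, hm₀, h7⟩ := h6
    have h8 : ∀ᶠ s in 𝓝[<] t, ‖T ^ m₀‖ < s ^ m₀ ∧ κ < s := by
      have h9 : ContinuousAt (fun s : ℝ => s ^ m₀) t := by fun_prop
      have h10 : ∀ᶠ s in 𝓝 t, ‖T ^ m₀‖ < s ^ m₀ := h9.eventually_const_lt h7
      have h11 : ∀ᶠ s in 𝓝 t, κ < s := lt_mem_nhds hκs
      exact nhdsWithin_le_nhds (h10.and h11)
    obtain ⟨s, ⟨hs1, hs2⟩, hs3⟩ := (h8.and self_mem_nhdsWithin).exists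
    have h9 : s ∈ G := ⟨hs2, P_of_norm (hκ.trans_lt hs2) m₀ hm₀ hs1⟩
    exact absurd (csInf_le hbdd h9) (not_le.2 hs3)
  -- the eigenvector
  by_contra hz
  push Not at hz
  have hz0 : 0 < ‖z‖ := hκ.trans_lt hz
  have h3 := hP ‖z‖ hz
  have hpow : ∀ m : ℕ, (((‖z‖⁻¹ • T) ^ m).map Complex.ofRealHom) *ᵥ x =
      ((‖z‖⁻¹ : ℂ) * z) ^ m • x := by
    intro m
    induction m with
    | zero =>
      rw [pow_zero, pow_zero, one_smul]
      rw [Matrix.map_one _ (map_zero _) (map_one _), Matrix.one_mulVec]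
    | succ m ih =>
      rw [pow_succ', Matrix.map_mul, ← Matrix.mulVec_mulVec, ih, Matrix.mulVec_smul]
      have h4 : (‖z‖⁻¹ • T).map Complex.ofRealHom *ᵥ x = ((‖z‖⁻¹ : ℂ) * z) • x := by
        have h5 : (‖z‖⁻¹ • T).map Complex.ofRealHom =
            (‖z‖⁻¹ : ℂ) • T.map Complex.ofRealHom := by
          ext i j; simp
        rw [h5, Matrix.smul_mulVec, hTx, smul_smul]
      rw [h4, smul_smul, pow_succ]
  obtain ⟨i, hi⟩ : ∃ i, x i ≠ 0 := by
    by_contra hcon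
    push Not at hcon
    exact hx (funext hcon)
  have h4 : Tendsto (fun m => ((((‖z‖⁻¹ • T) ^ m).map Complex.ofRealHom) *ᵥ x) i) atTop (𝓝 0) := by
    have h5 : Continuous fun A : Matrix (Fin n) (Fin n) ℝ =>
        ((A.map Complex.ofRealHom) *ᵥ x) i := by
      have h6 : Continuous fun A : Matrix (Fin n) (Fin n) ℝ => A.map Complex.ofRealHom :=
        continuous_id.matrix_map Complex.continuous_ofReal
      exact (continuous_apply i).comp (Continuous.matrix_mulVec h6 continuous_const)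
    have h6 := (h5.tendsto 0).comp h3
    have h7 : (((0 : Matrix (Fin n) (Fin n) ℝ).map Complex.ofRealHom) *ᵥ x) i = 0 := by
      rw [Matrix.map_zero _ (map_zero _)]
      simp
    rw [h7] at h6
    exact h6
  have h5 : Tendsto (fun m : ℕ => ‖x i‖) atTop (𝓝 0) := by
    have h6 := tendsto_zero_iff_norm_tendsto_zero.1 h4
    refine h6.congr fun m => ?_
    rw [hpow, Pi.smul_apply, smul_eq_mul, norm_mul, norm_pow, norm_mul]
    have h7 : ‖(‖z‖⁻¹ : ℂ)‖ = ‖z‖⁻¹ := by simp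
    rw [h7, inv_mul_cancel₀ hz0.ne', one_pow, one_mul]
  have h6 := tendsto_nhds_unique h5 tendsto_const_nhds
  exact hi (norm_eq_zero.1 h6.symm)

end Pool.Agent.H28.CXR.PRI
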