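import Pool.Agent.H28.CXR.Stm

/-! RHO: the zeros of the absorbed Coxeter polynomial. -/

set_option autoImplicit false

namespace Pool.Agent.H28.CXR.RHO

open Matrix Filter Topology

theorem main (hiter : S_ITER) (hpri : S_PRI) : S_RHO := by
  intro n A hA e he hy κ hκ hs z hz
  obtain ⟨y, hy0, hAy⟩ := hy
  -- the small perturbation
  obtain ⟨ε, hε0, hε⟩ : ∃ ε : ℝ, 0 < ε ∧ ∀ i j, (A *ᵥ y) i + ε * A i j < 0 := by
    have h1 : ∀ᶠ ε in 𝓝[>] (0 : ℝ), ∀ i j, (A *ᵥ y) i + ε * A i j < 0 := by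
      rw [eventually_all]
      intro i
      rw [eventually_all]
      intro j
      have h2 : Tendsto (fun ε : ℝ => (A *ᵥ y) i + ε * A i j) (𝓝[>] 0)
          (𝓝 ((A *ᵥ y) i + 0 * A i j)) := by
        apply Tendsto.mono_left _ nhdsWithin_le_nhds
        exact (by fun_prop : Continuous fun ε : ℝ => (A *ᵥ y) i + ε * A i j).tendsto 0
      rw [zero_mul, add_zero] at h2
      exact h2.eventually (gt_mem_nhds (hAy i))
    obtain ⟨ε, h2, h3⟩ := (h1.and self_mem_nhdsWithin).exists
    exact ⟨ε, h3, h2⟩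
  obtain ⟨P, hP⟩ : ∃ P, P = up A + diagonal e := ⟨_, rfl⟩
  obtain ⟨Q, hQ⟩ : ∃ Q, Q = lo A - diagonal e := ⟨_, rfl⟩
  have hdetP : P.det = ∏ i, (1 + e i) := by
    rw [hP, det_of_isUpperTriangular]
    · refine Finset.prod_congr rfl fun i _ => ?_
      simp [up]
    · intro i j hij
      have h1 : j < i := hij
      simp only [Matrix.add_apply, up, Matrix.of_apply]
      rw [if_neg (not_lt_of_gt h1), if_neg (ne_of_gt h1), diagonal_apply_ne _ (ne_of_gt h1),
        add_zero]
  have hu : IsUnit P.det := by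
    rw [hdetP, isUnit_iff_ne_zero]
    refine Finset.prod_ne_zero_iff.2 fun i _ => ?_
    have := he i
    positivity
  have hT : opT A e = -(P⁻¹ * Q) := by rw [opT, hP, hQ]
  rw [← hP, ← hQ] at hz
  have hdet : ∀ s : ℝ, κ < s → (s • (1 : Matrix (Fin n) (Fin n) ℝ) - opT A e).det ≠ 0 := by
    intro s h h0
    apply hs s h
    rw [← hP, ← hQ]
    have h1 : s • P + Q = P * (s • (1 : Matrix (Fin n) (Fin n) ℝ) - opT A e) := by
      rw [hT, sub_neg_eq_add, Matrix.mul_add, Matrix.mul_smul, Matrix.mul_one, ← Matrix.mul_assoc,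
        mul_nonsing_inv _ hu, Matrix.one_mul]
    rw [h1, det_mul, h0, mul_zero]
  obtain ⟨x, hx0, hx⟩ := exists_mulVec_eq_zero_iff.2 hz
  refine hpri n (opT A e) κ ε y hκ hε0 hdet
    (hiter n A hA e he y (fun i => (hy0 i).le) (fun i => (hAy i).le)) ?_ z x hx0 ?_
  · intro j
    refine hiter n A hA e he _ ?_ ?_
    · intro i
      rw [Pi.add_apply]
      have h1 : 0 ≤ (Pi.single j ε : Fin n → ℝ) i := by
        rw [Pi.single_apply]
        split_ifs
        · exact hε0.le
        · exact le_rfl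
      exact add_nonneg (hy0 i).le h1
    · intro i
      rw [mulVec_add, Pi.add_apply]
      have h1 : (A *ᵥ (Pi.single j ε : Fin n → ℝ)) i = ε * A i j := by
        rw [mulVec_single]
        simp [mul_comm]
      rw [h1]
      exact (hε i j).le
  · have hinv : (P⁻¹).map Complex.ofRealHom * P.map Complex.ofRealHom = 1 := by
      rw [← Matrix.map_mul, nonsing_inv_mul _ hu]
      exact Matrix.map_one _ (map_zero _) (map_one _)
    have h1 : (opT A e).map Complex.ofRealHom =
        -((P⁻¹).map Complex.ofRealHom * Q.map Complex.ofRealHom) := by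
      rw [hT, ← Matrix.map_mul]
      ext i j
      simp only [Matrix.map_apply, Matrix.neg_apply, map_neg]
    have h2 : Q.map Complex.ofRealHom *ᵥ x = -(z • (P.map Complex.ofRealHom *ᵥ x)) := by
      rw [add_mulVec, smul_mulVec] at hx
      exact eq_neg_of_add_eq_zero_right hx
    rw [h1, neg_mulVec, ← mulVec_mulVec, h2, mulVec_neg, neg_neg, mulVec_smul, mulVec_mulVec,
      hinv, one_mulVec]

end Pool.Agent.H28.CXR.RHO
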