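import Pool.Agent.H28.CXR.Stm

/-! CXR-ROOT (helper51): Humphreys, Theorem 5.4. -/

set_option autoImplicit false

namespace Pool.Agent.H28.CXR.ROOT

open Matrix Polynomial Filter Topology

variable {n : ℕ} {A : Matrix (Fin n) (Fin n) ℝ}

theorem act_append (l l' : List (Fin n)) (x : Fin n → ℝ) :
    act A (l ++ l') x = act A l (act A l' x) := by
  induction l with
  | nil => rfl
  | cons i l ih => rw [List.cons_append, act, act, ih]

theorem refl_add (i : Fin n) (x y : Fin n → ℝ) : refl A i (x + y) = refl A i x + refl A i y := by
  unfold refl
  rw [Matrix.mulVec_add, Pi.add_apply, Pi.single_add]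
  abel

theorem refl_smul (i : Fin n) (c : ℝ) (x : Fin n → ℝ) : refl A i (c • x) = c • refl A i x := by
  unfold refl
  rw [Matrix.mulVec_smul, Pi.smul_apply, smul_sub, Pi.single_smul]

theorem act_add (l : List (Fin n)) (x y : Fin n → ℝ) : act A l (x + y) = act A l x + act A l y := by
  induction l with
  | nil => rfl
  | cons i l ih => rw [act, act, act, ih, refl_add]

theorem act_smul (l : List (Fin n)) (c : ℝ) (x : Fin n → ℝ) : act A l (c • x) = c • act A l x := by
  induction l with
  | nil => rfl
  | cons i l ih => rw [act, act, ih, refl_smul]

theorem refl_refl (hA : ∀ i, A i i = 2) (i : Fin n) (x : Fin n → ℝ) :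
    refl A i (refl A i x) = x := by
  unfold refl
  rw [Matrix.mulVec_sub, Pi.sub_apply]
  have h1 : (A *ᵥ Pi.single i ((A *ᵥ x) i)) i = 2 * (A *ᵥ x) i := by
    rw [Matrix.mulVec_single]
    simp [hA i, mul_comm]
  rw [h1]
  have h2 : (A *ᵥ x) i - 2 * (A *ᵥ x) i = -(A *ᵥ x) i := by ring
  rw [h2, Pi.single_neg]
  abel

theorem same_symm {l l' : List (Fin n)} (h : Same A l l') : Same A l' l := fun x => (h x).symm

theorem same_trans {l l' l'' : List (Fin n)} (h : Same A l l') (h' : Same A l' l'') :
    Same A l l'' := fun x => (h x).trans (h' x)

theorem same_right {l l' : List (Fin n)} (h : Same A l l') (c : List (Fin n)) :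
    Same A (l ++ c) (l' ++ c) := by
  intro x
  rw [act_append, act_append]; exact h _

theorem same_left {l l' : List (Fin n)} (h : Same A l l') (c : List (Fin n)) :
    Same A (c ++ l) (c ++ l') := by
  intro x
  rw [act_append, act_append, h]

theorem same_cancel (hA : ∀ i, A i i = 2) (v u : List (Fin n)) (i : Fin n) :
    Same A ((v ++ [i]) ++ (i :: u)) (v ++ u) := by
  intro x
  rw [act_append, act_append, act_append]
  show act A v (refl A i (refl A i (act A u x))) = _
  rw [refl_refl hA]

theorem red_prefix {a b : List (Fin n)} (h : Reduced A (a ++ b)) : Reduced A a := by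
  intro a' ha
  have := h _ (same_right ha b)
  rw [List.length_append, List.length_append] at this
  omega

theorem red_suffix {a b : List (Fin n)} (h : Reduced A (a ++ b)) : Reduced A b := by
  intro b' hb
  have := h _ (same_left hb a)
  rw [List.length_append, List.length_append] at this
  omega

theorem red_same {a b : List (Fin n)} (h : Reduced A a) (hab : Same A a b)
    (hl : b.length = a.length) : Reduced A b := by
  intro b' hb
  have := h _ (same_trans hab hb)
  omega

/-- minimality argument -/
theorem aux (hA : ∀ i, A i i = 2) (hPAR : S_PAR) {l v u : List (Fin n)} (hl : Reduced A l) (Q : List (Fin n) → Prop)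
    (hvu : Same A (v ++ u) l) (hlen : v.length + u.length = l.length) (i : Fin n)
    (hQ : Q (i :: u))
    (hmin : ∀ v' u' : List (Fin n), Q u' → Same A (v' ++ u') l →
      v'.length + u'.length = l.length → v.length ≤ v'.length) : Reduced A (v ++ [i]) := by
  by_contra hcon
  unfold Reduced at hcon
  push Not at hcon
  obtain ⟨v', hv', hlt⟩ := hcon
  have hpar := hPAR n A hA _ _ hv'
  rw [List.length_append, List.length_singleton] at hlt hpar
  have h1 : Same A (v' ++ (i :: u)) l := by
    refine same_trans (same_right (same_symm hv') (i :: u)) ?_
    exact same_trans (same_cancel hA v u i) hvu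
  have h2 := hl _ (same_symm h1)
  rw [List.length_append, List.length_cons] at h2
  have h3 := hmin v' (i :: u) hQ h1 (by rw [List.length_cons]; omega)
  omega

theorem main : S_DIH → S_PAR → S_ALT → S_ROOT := by
  intro hDIH hPAR hALT n A hA
  have key : ∀ N : ℕ, ∀ l : List (Fin n), l.length ≤ N → ∀ i : Fin n, Reduced A (l ++ [i]) →
      ∀ k, 0 ≤ act A l (Pi.single i 1) k := by
    intro N
    induction N with
    | zero =>
      intro l hl i _ k
      have : l = [] := List.length_eq_zero_iff.1 (by omega)
      subst this
      show 0 ≤ (Pi.single i 1 : Fin n → ℝ) k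
      by_cases h : k = i
      · subst h; simp
      · simp [h]
    | succ N ih =>
      intro l hl i hred k
      rcases List.eq_nil_or_concat l with rfl | ⟨l₀, j, rfl⟩
      · show 0 ≤ (Pi.single i 1 : Fin n → ℝ) k
        by_cases h : k = i
        · subst h; simp
        · simp [h]
      · rw [List.concat_eq_append] at *
        have hlred : Reduced A (l₀ ++ [j]) := red_prefix hred
        have hij : i ≠ j := by
          rintro rfl
          have h1 : Same A (l₀ ++ [i] ++ [i]) l₀ := by
            have := same_cancel hA.diag l₀ [] i
            simpa using this
          have := hred _ h1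
          simp at this
        set l := l₀ ++ [j] with hldef
        -- minimal decomposition
        let Q : List (Fin n) → Prop := fun u => ∀ a ∈ u, a = i ∨ a = j
        have hex : ∃ m : ℕ, ∃ v u : List (Fin n), v.length = m ∧ Q u ∧ Same A (v ++ u) l ∧
            v.length + u.length = l.length := by
          refine ⟨l₀.length, l₀, [j], rfl, ?_, fun _ => rfl, ?_⟩
          · intro a ha
            right
            simpa using ha
          · rw [hldef, List.length_append]
        classical
        obtain ⟨v, u, hvm, hQu, hvu, hlen⟩ := Nat.find_spec hex
        have hmin : ∀ v' u' : List (Fin n), Q u' → Same A (v' ++ u') l →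
            v'.length + u'.length = l.length → v.length ≤ v'.length := by
          intro v' u' hQ' hs' hl'
          rw [hvm]
          exact Nat.find_min' hex ⟨v', u', rfl, hQ', hs', hl'⟩
        have hvlt : v.length ≤ l₀.length := by
          apply hmin l₀ [j]
          · intro a ha
            right
            simpa using ha
          · exact fun _ => rfl
          · rw [hldef, List.length_append]
        have hll : l.length = l₀.length + 1 := by rw [hldef]; simp
        have hvi : Reduced A (v ++ [i]) :=
          aux hA.diag hPAR hlred Q hvu hlen i (by
            intro a ha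
            rcases List.mem_cons.1 ha with rfl | ha
            · exact Or.inl rfl
            · exact hQu a ha) hmin
        have hvj : Reduced A (v ++ [j]) :=
          aux hA.diag hPAR hlred Q hvu hlen j (by
            intro a ha
            rcases List.mem_cons.1 ha with rfl | ha
            · exact Or.inr rfl
            · exact hQu a ha) hmin
        have hpi := ih v (by omega) i hvi
        have hpj := ih v (by omega) j hvj
        have hui : Reduced A (u ++ [i]) := by
          have h1 : Reduced A (v ++ u ++ [i]) := by
            apply red_same hred (same_right (same_symm hvu) [i])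
            simp only [List.length_append, List.length_singleton]
            rw [hldef, List.length_append] at hlen
            simp only [List.length_singleton] at hlen
            omega
          rw [List.append_assoc] at h1
          exact red_suffix h1
        obtain ⟨hu1, hu2, hu3, hu4, hu5⟩ := hALT n A hA i j hij u hQu hui
        obtain ⟨p, q, hp, hq, hpq⟩ := hDIH n A hA i j hij u.length hu2 hu3 hu4 hu5
        rw [← hu1] at hpq
        rw [← hvu, act_append, hpq, act_add, act_smul, act_smul, Pi.add_apply, Pi.smul_apply,
          Pi.smul_apply, smul_eq_mul, smul_eq_mul]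
        exact add_nonneg (mul_nonneg hp (hpi k)) (mul_nonneg hq (hpj k))
  intro l i hred k
  exact key l.length l le_rfl i hred k

end Pool.Agent.H28.CXR.ROOT
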