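import Pool.Agent.H28.CXR.Stm

set_option autoImplicit false

/-! # CXR-TOP1: a positive null vector of the Coxeter pencil (helper71) -/

namespace Pool.Agent.H28.CXR.TOP1

open Matrix Filter

variable {n : ℕ}

theorem pencil (A : Matrix (Fin n) (Fin n) ℝ) (t : ℝ) (v : Fin n → ℝ) (i : Fin n) :
    ((t • up A + lo A) *ᵥ v) i = t * (up A *ᵥ v) i + (lo A *ᵥ v) i := by
  rw [Matrix.add_mulVec, Matrix.smul_mulVec]
  rfl

theorem entry_off (A : Matrix (Fin n) (Fin n) ℝ) (hA : ∀ i j, i ≠ j → A i j ≤ 0) (t : ℝ)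
    (ht : 0 ≤ t) (i j : Fin n) (hij : i ≠ j) : (t • up A + lo A) i j ≤ 0 := by
  have h := hA i j hij
  simp only [Matrix.add_apply, Matrix.smul_apply, up, lo, Matrix.of_apply, smul_eq_mul]
  rcases lt_trichotomy i j with h1 | h1 | h1
  · rw [if_pos h1, if_neg (not_lt.2 h1.le), if_neg hij]
    nlinarith
  · exact absurd h1 hij
  · rw [if_neg (not_lt.2 h1.le), if_neg hij, if_pos h1]
    linarith

theorem entry_ne (A : Matrix (Fin n) (Fin n) ℝ) (hA : ∀ i j, i ≠ j → A i j ≤ 0) (t : ℝ)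
    (ht : 0 < t) (i j : Fin n) (hij : i ≠ j) (h0 : A i j ≠ 0) : (t • up A + lo A) i j < 0 := by
  have h := lt_of_le_of_ne (hA i j hij) h0
  simp only [Matrix.add_apply, Matrix.smul_apply, up, lo, Matrix.of_apply, smul_eq_mul]
  rcases lt_trichotomy i j with h1 | h1 | h1
  · rw [if_pos h1, if_neg (not_lt.2 h1.le), if_neg hij]
    nlinarith
  · exact absurd h1 hij
  · rw [if_neg (not_lt.2 h1.le), if_neg hij, if_pos h1]
    linarith

theorem entry_diag (A : Matrix (Fin n) (Fin n) ℝ) (t : ℝ) (i : Fin n) :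
    (t • up A + lo A) i i = t + 1 := by
  simp [up, lo]

/-- a positive vector with positive image under the upper triangular part -/
theorem exists_up (A : Matrix (Fin n) (Fin n) ℝ) :
    ∃ y : Fin n → ℝ, (∀ i, 0 < y i) ∧ ∀ i, 0 < (up A *ᵥ y) i := by
  obtain ⟨B, hB⟩ : ∃ B : ℝ, B = 1 + ∑ i, ∑ j, |A i j| := ⟨_, rfl⟩
  have hB1 : 1 ≤ B := by
    rw [hB]
    have : 0 ≤ ∑ i, ∑ j, |A i j| := Finset.sum_nonneg fun i _ => Finset.sum_nonneg fun j _ =>
      abs_nonneg _
    linarith
  have hB0 : 0 < B := by linarith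
  refine ⟨fun i => B ^ (n - (i : ℕ)), fun i => pow_pos hB0 _, fun i => ?_⟩
  have h1 : ∀ j, up A i j * B ^ (n - (j : ℕ)) ≥
      (if i = j then B ^ (n - (i : ℕ)) else 0) - |A i j| * B ^ (n - (i : ℕ) - 1) := by
    intro j
    simp only [up, Matrix.of_apply]
    rcases lt_trichotomy i j with h1 | h1 | h1
    · rw [if_pos h1, if_neg h1.ne, zero_sub]
      have h2 : B ^ (n - (j : ℕ)) ≤ B ^ (n - (i : ℕ) - 1) := by
        apply pow_le_pow_right₀ hB1
        have : (i : ℕ) < j := h1
        omega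
      have h3 : -|A i j| ≤ A i j := neg_abs_le _
      have h4 : 0 ≤ B ^ (n - (j : ℕ)) := pow_nonneg hB0.le _
      have h5 : 0 ≤ |A i j| := abs_nonneg _
      nlinarith
    · subst h1
      rw [if_neg (lt_irrefl _), if_pos rfl, if_pos rfl, one_mul]
      have h4 : 0 ≤ B ^ (n - (i : ℕ) - 1) := pow_nonneg hB0.le _
      have h5 : 0 ≤ |A i i| := abs_nonneg _
      nlinarith
    · rw [if_neg (not_lt.2 h1.le), if_neg h1.ne', if_neg h1.ne', zero_mul, zero_sub]
      have h4 : 0 ≤ B ^ (n - (i : ℕ) - 1) := pow_nonneg hB0.le _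
      have h5 : 0 ≤ |A i j| := abs_nonneg _
      nlinarith
  have h2 : (up A *ᵥ fun i => B ^ (n - (i : ℕ))) i ≥
      ∑ j, ((if i = j then B ^ (n - (i : ℕ)) else 0) - |A i j| * B ^ (n - (i : ℕ) - 1)) := by
    simp only [Matrix.mulVec, dotProduct]
    exact Finset.sum_le_sum fun j _ => h1 j
  rw [Finset.sum_sub_distrib, ← Finset.sum_mul, Finset.sum_ite_eq, if_pos (Finset.mem_univ i)] at h2
  have h3 : ∑ j, |A i j| ≤ B - 1 := by
    rw [hB, add_sub_cancel_left]
    exact Finset.single_le_sum (f := fun i => ∑ j, |A i j|)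
      (fun i _ => Finset.sum_nonneg fun j _ => abs_nonneg _) (Finset.mem_univ i)
  have h4 : 0 < B ^ (n - (i : ℕ) - 1) := pow_pos hB0 _
  have h5 : B ^ (n - (i : ℕ)) = B ^ (n - (i : ℕ) - 1) * B := by
    rw [← pow_succ]
    congr 1
    have := i.2
    omega
  rw [h5] at h2
  nlinarith [mul_le_mul_of_nonneg_right h3 h4.le]

/-- enlarge the set of strictly positive rows -/
theorem grow {K : Matrix (Fin n) (Fin n) ℝ} (hK : ∀ i j, i ≠ j → K i j ≤ 0)
    (hd : ∀ i, 0 < K i i)
    (hI : ∀ S : Finset (Fin n), S.Nonempty → S ≠ Finset.univ → ∃ i ∈ S, ∃ j, j ∉ S ∧ K i j < 0)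
    (v : Fin n → ℝ) (hv : ∀ i, 0 ≤ v i) (hKv : ∀ i, 0 ≤ (K *ᵥ v) i) (i₀ : Fin n)
    (hi₀ : 0 < (K *ᵥ v) i₀) : ∀ k : ℕ, k + 1 ≤ n → ∃ (P : Finset (Fin n)) (w : Fin n → ℝ),
      k + 1 ≤ P.card ∧ (∀ i, 0 ≤ w i) ∧ (∀ i, 0 ≤ (K *ᵥ w) i) ∧ ∀ i ∈ P, 0 < (K *ᵥ w) i := by
  intro k
  induction k with
  | zero =>
    intro _
    exact ⟨{i₀}, v, by simp, hv, hKv, fun i hi => by rw [Finset.mem_singleton.1 hi]; exact hi₀⟩
  | succ k ih =>
    intro hk
    obtain ⟨P, w, hP, hw, hKw, hPw⟩ := ih (by omega)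
    by_cases hc : k + 1 + 1 ≤ P.card
    · exact ⟨P, w, hc, hw, hKw, hPw⟩
    · have hcard : P.card = k + 1 := by omega
      have hne : P ≠ Finset.univ := by
        intro h
        rw [h, Finset.card_univ, Fintype.card_fin] at hcard
        omega
      have hPne : P.Nonempty := by
        rw [← Finset.card_pos]
        omega
      obtain ⟨i, hi, j, hj, hij⟩ := hI Pᶜ (by
        rw [Finset.nonempty_iff_ne_empty]
        intro h
        exact hne ((Finset.compl_eq_empty_iff P).1 h)) (by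
        intro h
        rw [Finset.compl_eq_univ_iff] at h
        exact hPne.ne_empty h)
      rw [Finset.mem_compl] at hi
      rw [Finset.mem_compl, not_not] at hj
      have hjw := hPw j hj
      -- `w j > 0`
      have hwj : 0 < w j := by
        refine lt_of_le_of_ne (hw j) fun h => ?_
        have h1 : (K *ᵥ w) j ≤ 0 := by
          simp only [Matrix.mulVec, dotProduct]
          refine Finset.sum_nonpos fun l _ => ?_
          by_cases hl : j = l
          · subst hl
            rw [← h, mul_zero]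
          · exact mul_nonpos_of_nonpos_of_nonneg (hK j l hl) (hw l)
        linarith
      obtain ⟨ε, hε, hε1, hε2⟩ : ∃ ε : ℝ, 0 < ε ∧ ε ≤ w j ∧ ε * K j j < (K *ᵥ w) j := by
        have hdj := hd j
        refine ⟨min (w j) ((K *ᵥ w) j / (2 * K j j)), lt_min hwj (by positivity),
          min_le_left _ _, ?_⟩
        have h1 : min (w j) ((K *ᵥ w) j / (2 * K j j)) * K j j ≤
            ((K *ᵥ w) j / (2 * K j j)) * K j j :=
          mul_le_mul_of_nonneg_right (min_le_right _ _) hdj.le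
        have h2 : ((K *ᵥ w) j / (2 * K j j)) * K j j = (K *ᵥ w) j / 2 := by
          field_simp
        linarith
      have hform : ∀ l, (K *ᵥ (w - ε • (Pi.single j (1 : ℝ) : Fin n → ℝ))) l =
          (K *ᵥ w) l - ε * K l j := by
        intro l
        rw [Matrix.mulVec_sub, Matrix.mulVec_smul]
        simp
      refine ⟨insert i P, w - ε • (Pi.single j (1 : ℝ) : Fin n → ℝ), ?_, ?_, ?_, ?_⟩
      · rw [Finset.card_insert_of_notMem hi]
        omega
      · intro l
        by_cases hl : l = j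
        · subst hl
          simp
          exact hε1
        · simp [hl]
          exact hw l
      · intro l
        rw [hform]
        by_cases hl : l = j
        · subst hl
          linarith
        · have := hK l j hl
          have h2 := hKw l
          nlinarith
      · intro l hl
        rw [hform]
        by_cases hlj : l = j
        · subst hlj
          linarith
        · have h3 := hK l j hlj
          rcases Finset.mem_insert.1 hl with h4 | h4
          · subst h4
            have h2 := hKw l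
            nlinarith
          · have h2 := hPw l h4
            nlinarith

theorem main : S_TOP1 := by
  intro n A d hA2 hd hs hA hI ⟨y, hy, hAy⟩
  rcases Nat.eq_zero_or_pos n with hn | hn
  · subst hn
    exact ⟨2, by norm_num, 0, fun i => i.elim0, Subsingleton.elim _ _⟩
  · have : NeZero n := ⟨hn.ne'⟩
    obtain ⟨u, hu, hAu⟩ := exists_up A
    have hsum : 0 < ∑ i, u i := Finset.sum_pos (fun i _ => hu i) ⟨⟨0, hn⟩, Finset.mem_univ _⟩
    obtain ⟨T, hT1, hT⟩ : ∃ T : ℝ, 1 ≤ T ∧ ∀ i, 0 ≤ T * (up A *ᵥ u) i + (lo A *ᵥ u) i := by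
      have h1 : ∀ᶠ T : ℝ in atTop, ∀ i, 0 ≤ T * (up A *ᵥ u) i + (lo A *ᵥ u) i := by
        refine eventually_all.2 fun i => ?_
        have h2 : Tendsto (fun T : ℝ => T * (up A *ᵥ u) i + (lo A *ᵥ u) i) atTop atTop :=
          tendsto_atTop_add_const_right _ _ (tendsto_id.atTop_mul_const (hAu i))
        exact h2.eventually_ge_atTop 0
      obtain ⟨T, hT, hT1⟩ := (h1.and (eventually_ge_atTop 1)).exists
      exact ⟨T, hT1, hT⟩
    obtain ⟨C, hC⟩ : ∃ C : Set (ℝ × (Fin n → ℝ)), C = (Set.Icc 1 T ×ˢ stdSimplex ℝ (Fin n)) ∩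
        {p | ∀ i, 0 ≤ p.1 * (up A *ᵥ p.2) i + (lo A *ᵥ p.2) i} := ⟨_, rfl⟩
    have hCc : IsCompact C := by
      rw [hC]
      refine (isCompact_Icc.prod (isCompact_stdSimplex ℝ (Fin n))).inter_right ?_
      simp only [Set.ofPred_forall]
      refine isClosed_iInter fun i => isClosed_le continuous_const ?_
      simp only [Matrix.mulVec, dotProduct]
      fun_prop
    have hCne : C.Nonempty := by
      rw [hC]
      refine ⟨(T, (∑ i, u i)⁻¹ • u), ⟨⟨⟨hT1, le_rfl⟩, ⟨fun i => ?_, ?_⟩⟩, fun i => ?_⟩⟩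
      · simp only [Pi.smul_apply, smul_eq_mul]
        exact mul_nonneg (inv_nonneg.2 hsum.le) (hu i).le
      · simp only [Pi.smul_apply, smul_eq_mul]
        rw [← Finset.mul_sum, inv_mul_cancel₀ hsum.ne']
      · have h1 := hT i
        have h2 : T * (up A *ᵥ ((∑ i, u i)⁻¹ • u)) i + (lo A *ᵥ ((∑ i, u i)⁻¹ • u)) i =
            (∑ i, u i)⁻¹ * (T * (up A *ᵥ u) i + (lo A *ᵥ u) i) := by
          rw [Matrix.mulVec_smul, Matrix.mulVec_smul]
          simp only [Pi.smul_apply, smul_eq_mul]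
          ring
        show 0 ≤ T * (up A *ᵥ ((∑ i, u i)⁻¹ • u)) i + (lo A *ᵥ ((∑ i, u i)⁻¹ • u)) i
        rw [h2]
        exact mul_nonneg (inv_nonneg.2 hsum.le) h1
    obtain ⟨⟨t, v⟩, htv, hmin⟩ := hCc.exists_isMinOn hCne (f := fun p => p.1)
      continuous_fst.continuousOn
    have htv' := htv
    rw [hC] at htv'
    obtain ⟨⟨⟨ht1, htT⟩, ⟨hv, hvs⟩⟩, hKv⟩ := htv'
    simp only [Set.mem_ofPred_eq] at hKv ht1 htT hv hvs
    have hlow : ∀ s : ℝ, 1 ≤ s → s ≤ T → ∀ w : Fin n → ℝ, (∀ i, 0 ≤ w i) → w ≠ 0 →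
        (∀ i, 0 ≤ s * (up A *ᵥ w) i + (lo A *ᵥ w) i) → t ≤ s := by
      intro s hs1 hsT w hw hw0 hKw
      have hws : 0 < ∑ i, w i := by
        obtain ⟨i, hi⟩ := Function.ne_iff.1 hw0
        exact Finset.sum_pos' (fun j _ => hw j) ⟨i, Finset.mem_univ i,
          lt_of_le_of_ne (hw i) (Ne.symm hi)⟩
      have : ((s, (∑ i, w i)⁻¹ • w) : ℝ × (Fin n → ℝ)) ∈ C := by
        rw [hC]
        refine ⟨⟨⟨hs1, hsT⟩, ⟨fun i => ?_, ?_⟩⟩, fun i => ?_⟩
        · simp only [Pi.smul_apply, smul_eq_mul]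
          exact mul_nonneg (inv_nonneg.2 hws.le) (hw i)
        · simp only [Pi.smul_apply, smul_eq_mul]
          rw [← Finset.mul_sum, inv_mul_cancel₀ hws.ne']
        · have h2 : s * (up A *ᵥ ((∑ i, w i)⁻¹ • w)) i + (lo A *ᵥ ((∑ i, w i)⁻¹ • w)) i =
              (∑ i, w i)⁻¹ * (s * (up A *ᵥ w) i + (lo A *ᵥ w) i) := by
            rw [Matrix.mulVec_smul, Matrix.mulVec_smul]
            simp only [Pi.smul_apply, smul_eq_mul]
            ring
          show 0 ≤ s * (up A *ᵥ ((∑ i, w i)⁻¹ • w)) i + (lo A *ᵥ ((∑ i, w i)⁻¹ • w)) i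
          rw [h2]
          exact mul_nonneg (inv_nonneg.2 hws.le) (hKw i)
      exact hmin this
    have hv0 : v ≠ 0 := by
      rintro rfl
      simp at hvs
    have ht0 : 0 < t := by linarith
    -- `t > 1`
    have hAul : ∀ (w : Fin n → ℝ) (i : Fin n), (A *ᵥ w) i = (up A *ᵥ w) i + (lo A *ᵥ w) i := by
      intro w i
      rw [← Pi.add_apply, ← Matrix.add_mulVec]
      congr 2
      ext a b
      simp only [Matrix.add_apply, up, lo, Matrix.of_apply]
      rcases lt_trichotomy a b with h1 | h1 | h1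
      · rw [if_pos h1, if_neg (not_lt.2 h1.le), if_neg h1.ne, add_zero]
      · subst h1
        rw [if_neg (lt_irrefl _), if_pos rfl, hA2]
        norm_num
      · rw [if_neg (not_lt.2 h1.le), if_neg h1.ne', if_pos h1, zero_add]
    have ht : 1 < t := by
      refine lt_of_le_of_ne ht1 fun h => ?_
      rw [← h] at hKv
      have h1 : ∀ i, 0 ≤ (A *ᵥ v) i := by
        intro i
        rw [hAul]
        have := hKv i
        rwa [one_mul] at this
      have h2 : ∑ i, d i * y i * (A *ᵥ v) i = ∑ i, d i * v i * (A *ᵥ y) i := by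
        simp only [Matrix.mulVec, dotProduct, Finset.mul_sum]
        rw [Finset.sum_comm]
        refine Finset.sum_congr rfl fun i _ => Finset.sum_congr rfl fun j _ => ?_
        have := hs i j
        calc d j * y j * (A j i * v i) = (d j * A j i) * (y j * v i) := by ring
          _ = (d i * A i j) * (y j * v i) := by rw [this]
          _ = d i * v i * (A i j * y j) := by ring
      have h3 : 0 ≤ ∑ i, d i * y i * (A *ᵥ v) i := Finset.sum_nonneg fun i _ =>
        mul_nonneg (mul_nonneg (hd i).le (hy i).le) (h1 i)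
      have h4 : ∑ i, d i * v i * (A *ᵥ y) i < 0 := by
        obtain ⟨i, hi⟩ := Function.ne_iff.1 hv0
        have hvi : 0 < v i := lt_of_le_of_ne (hv i) (Ne.symm hi)
        refine Finset.sum_neg' (fun j _ => ?_) ⟨i, Finset.mem_univ i, ?_⟩
        · exact mul_nonpos_of_nonneg_of_nonpos (mul_nonneg (hd j).le (hv j)) (hAy j).le
        · exact mul_neg_of_pos_of_neg (mul_pos (hd i) hvi) (hAy i)
      linarith
    obtain ⟨K, hKd⟩ : ∃ K : Matrix (Fin n) (Fin n) ℝ, K = t • up A + lo A := ⟨_, rfl⟩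
    have hKp : ∀ (w : Fin n → ℝ) (i : Fin n), (K *ᵥ w) i =
        t * (up A *ᵥ w) i + (lo A *ᵥ w) i := fun w i => by rw [hKd, pencil]
    have hKoff : ∀ i j, i ≠ j → K i j ≤ 0 := fun i j hij => by
      rw [hKd]
      exact entry_off A hA t ht0.le i j hij
    have hKdiag : ∀ i, 0 < K i i := fun i => by
      rw [hKd, entry_diag]
      linarith
    have hKI : ∀ S : Finset (Fin n), S.Nonempty → S ≠ Finset.univ →
        ∃ i ∈ S, ∃ j, j ∉ S ∧ K i j < 0 := by
      intro S hS hSu
      obtain ⟨i, hi, j, hj, hij⟩ := hI S hS hSu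
      refine ⟨i, hi, j, hj, ?_⟩
      rw [hKd]
      exact entry_ne A hA t ht0 i j (fun h => hj (h ▸ hi)) hij
    have hKv0 : ∀ i, 0 ≤ (K *ᵥ v) i := fun i => by rw [hKp]; exact hKv i
    -- `K v = 0`
    have hzero : ∀ i, (K *ᵥ v) i = 0 := by
      by_contra hcon
      push Not at hcon
      obtain ⟨i₀, hi₀⟩ := hcon
      obtain ⟨P, w, hP, hw, -, hPw⟩ := grow hKoff hKdiag hKI v hv hKv0 i₀
        (lt_of_le_of_ne (hKv0 i₀) (Ne.symm hi₀)) (n - 1) (by omega)
      have hPu : P = Finset.univ := by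
        refine Finset.eq_univ_of_card P ?_
        have h1 := Finset.card_le_univ P
        rw [Fintype.card_fin] at h1 ⊢
        omega
      rw [hPu] at hPw
      have hw0 : w ≠ 0 := by
        rintro rfl
        have := hPw i₀ (Finset.mem_univ _)
        simp at this
      have h1 : ∀ᶠ s : ℝ in nhdsWithin t (Set.Iio t), ∀ i, 0 < s * (up A *ᵥ w) i + (lo A *ᵥ w) i := by
        refine eventually_all.2 fun i => ?_
        have h2 : ContinuousAt (fun s : ℝ => s * (up A *ᵥ w) i + (lo A *ᵥ w) i) t := by fun_prop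
        have h3 : 0 < t * (up A *ᵥ w) i + (lo A *ᵥ w) i := by
          rw [← hKp]
          exact hPw i (Finset.mem_univ i)
        exact (h2.eventually (lt_mem_nhds h3)).filter_mono nhdsWithin_le_nhds
      have h4 : ∀ᶠ s : ℝ in nhdsWithin t (Set.Iio t), 1 < s :=
        (lt_mem_nhds ht).filter_mono nhdsWithin_le_nhds
      have h5 : ∀ᶠ s : ℝ in nhdsWithin t (Set.Iio t), s < t := self_mem_nhdsWithin
      obtain ⟨s, ⟨hs1, hs2⟩, hs3⟩ := ((h1.and h4).and h5).exists
      have := hlow s hs2.le (hs3.le.trans htT) w hw hw0 fun i => (hs1 i).le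
      linarith
    refine ⟨t, ht, v, ?_, ?_⟩
    · by_contra hcon
      push Not at hcon
      obtain ⟨i₀, hi₀⟩ := hcon
      obtain ⟨i, hiS, j, hjS, hij⟩ := hKI (Finset.univ.filter fun i => v i = 0)
        ⟨i₀, by
          rw [Finset.mem_filter]
          exact ⟨Finset.mem_univ _, le_antisymm hi₀ (hv i₀)⟩⟩ (by
          intro h
          apply hv0
          funext i
          have : i ∈ Finset.univ.filter fun i => v i = 0 := by rw [h]; exact Finset.mem_univ i
          rw [Finset.mem_filter] at this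
          exact this.2)
      have hvi : v i = 0 := by
        rw [Finset.mem_filter] at hiS
        exact hiS.2
      have hvj : 0 < v j := by
        refine lt_of_le_of_ne (hv j) fun h => hjS ?_
        rw [Finset.mem_filter]
        exact ⟨Finset.mem_univ j, h.symm⟩
      have h1 : ∑ k, K i k * v k = 0 := hzero i
      have h2 : ∀ k ∈ Finset.univ, K i k * v k ≤ 0 := by
        intro k _
        by_cases hik : i = k
        · rw [← hik, hvi, mul_zero]
        · exact mul_nonpos_of_nonpos_of_nonneg (hKoff i k hik) (hv k)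
      have h3 := (Finset.sum_eq_zero_iff_of_nonpos h2).1 h1 j (Finset.mem_univ j)
      rcases mul_eq_zero.1 h3 with h4 | h4
      · exact hij.ne h4
      · exact hvj.ne' h4
    · rw [← hKd]
      funext i
      exact hzero i

end Pool.Agent.H28.CXR.TOP1
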