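import Pool.Agent.H28.CXR.Stm

set_option autoImplicit false

/-! # CXR-TOP2: nonsingular principal submatrices (helper71) -/

namespace Pool.Agent.H28.CXR.TOP2

open Matrix

theorem nonneg {n : ℕ} {K : Matrix (Fin (n + 1)) (Fin (n + 1)) ℝ} (hK : ∀ i j, i ≠ j → K i j ≤ 0)
    (hI : Indec K) {v : Fin (n + 1) → ℝ} (hv : ∀ i, 0 < v i) (hKv : K *ᵥ v = 0)
    (i : Fin (n + 1)) (w : Fin (n + 1) → ℝ) (hwi : w i = 0) (hw : ∀ j, j ≠ i → (K *ᵥ w) j = 0)
    (k : Fin (n + 1)) : 0 ≤ w k := by
  by_contra hk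
  push Not at hk
  obtain ⟨j₀, -, hj₀⟩ := Finset.exists_min_image Finset.univ (fun j => w j / v j)
    ⟨k, Finset.mem_univ k⟩
  obtain ⟨μ, hμ⟩ : ∃ μ, μ = w j₀ / v j₀ := ⟨_, rfl⟩
  have hμ0 : μ < 0 := by
    have h1 := hj₀ k (Finset.mem_univ k)
    have h2 : w k / v k < 0 := div_neg_of_neg_of_pos hk (hv k)
    rw [hμ]
    linarith
  have hle : ∀ j, μ * v j ≤ w j := fun j => by
    have h1 := hj₀ j (Finset.mem_univ j)
    rw [← hμ] at h1
    exact (le_div_iff₀ (hv j)).1 h1
  have hJ0 : w j₀ = μ * v j₀ := by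
    rw [hμ, div_mul_cancel₀ _ (hv j₀).ne']
  obtain ⟨j, hj, l, hl, hjl⟩ := hI (Finset.univ.filter fun j => w j = μ * v j)
    ⟨j₀, by simpa using hJ0⟩ (fun h => by
      have : i ∈ Finset.univ.filter fun j => w j = μ * v j := by rw [h]; exact Finset.mem_univ i
      rw [Finset.mem_filter, hwi] at this
      have h2 := mul_neg_of_neg_of_pos hμ0 (hv i)
      linarith [this.2])
  rw [Finset.mem_filter] at hj hl
  have hj' := hj.2
  have hji : j ≠ i := by
    rintro rfl
    rw [hwi] at hj'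
    have h2 := mul_neg_of_neg_of_pos hμ0 (hv j)
    linarith
  have hsum : ∑ k, (μ * (K j k * v k) - K j k * w k) = 0 := by
    rw [Finset.sum_sub_distrib, ← Finset.mul_sum]
    have h1 : ∑ k, K j k * v k = 0 := by
      have := congrFun hKv j
      simpa [Matrix.mulVec, dotProduct] using this
    have h2 : ∑ k, K j k * w k = 0 := by
      have := hw j hji
      simpa [Matrix.mulVec, dotProduct] using this
    rw [h1, h2]
    ring
  have hnn : ∀ k ∈ Finset.univ, 0 ≤ μ * (K j k * v k) - K j k * w k := by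
    intro k _
    by_cases hk : k = j
    · rw [hk, hj']
      refine le_of_eq ?_
      ring
    · have h1 := hK j k (Ne.symm hk)
      have h2 := mul_nonneg_of_nonpos_of_nonpos h1 (by linarith [hle k] : μ * v k - w k ≤ 0)
      linarith
  have h0 := (Finset.sum_eq_zero_iff_of_nonneg hnn).1 hsum l (Finset.mem_univ l)
  have h1 : K j l * (μ * v l - w l) = 0 := by linarith
  rcases mul_eq_zero.1 h1 with h2 | h2
  · exact hjl h2
  · exact hl ⟨Finset.mem_univ l, by linarith⟩

theorem main : S_TOP2 := by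
  intro n K hK hI ⟨v, hv, hKv⟩ i hdet
  obtain ⟨w, hw0, hw⟩ := Matrix.exists_mulVec_eq_zero_iff.2 hdet
  have key : ∀ u : Fin n → ℝ, K.submatrix i.succAbove i.succAbove *ᵥ u = 0 → ∀ k, 0 ≤ u k := by
    intro u hu k
    have h := nonneg hK hI hv hKv i (i.insertNth 0 u) (by simp) (fun j hj => by
      obtain ⟨l, rfl⟩ := Fin.exists_succAbove_eq hj
      have h1 := congrFun hu l
      simp only [Matrix.mulVec, dotProduct, Matrix.submatrix_apply, Pi.zero_apply] at h1 ⊢
      rw [Fin.sum_univ_succAbove _ i]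
      simp only [Fin.insertNth_apply_same, mul_zero, zero_add, Fin.insertNth_apply_succAbove]
      exact h1) (i.succAbove k)
    simpa using h
  apply hw0
  funext k
  have h1 := key w hw k
  have h2 := key (-w) (by rw [Matrix.mulVec_neg, hw, neg_zero]) k
  simp only [Pi.neg_apply, Pi.zero_apply] at h2 ⊢
  linarith

end Pool.Agent.H28.CXR.TOP2
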