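import Pool.Agent.H28.CXR.Stm

set_option autoImplicit false

/-! # CXR-TRI: positive semidefinite or indefinite type (helper71) -/

namespace Pool.Agent.H28.CXR.TRI

open Matrix

variable {n : ℕ}

/-- the quadratic form -/
def q (A : Matrix (Fin n) (Fin n) ℝ) (d x : Fin n → ℝ) : ℝ := ∑ i, ∑ j, d i * A i j * x i * x j

/-- the norm form -/
def D (d x : Fin n → ℝ) : ℝ := ∑ i, d i * x i ^ 2

theorem q_smul (A : Matrix (Fin n) (Fin n) ℝ) (d x : Fin n → ℝ) (c : ℝ) :
    q A d (c • x) = c ^ 2 * q A d x := by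
  simp only [q, Finset.mul_sum, Pi.smul_apply, smul_eq_mul]
  refine Finset.sum_congr rfl fun i _ => Finset.sum_congr rfl fun j _ => ?_
  ring

theorem D_smul (d x : Fin n → ℝ) (c : ℝ) : D d (c • x) = c ^ 2 * D d x := by
  simp only [D, Finset.mul_sum, Pi.smul_apply, smul_eq_mul]
  refine Finset.sum_congr rfl fun i _ => ?_
  ring

theorem q_abs (A : Matrix (Fin n) (Fin n) ℝ) (d x : Fin n → ℝ) (hd : ∀ i, 0 < d i)
    (hA : ∀ i j, i ≠ j → A i j ≤ 0) : q A d (fun i => |x i|) ≤ q A d x := by
  refine Finset.sum_le_sum fun i _ => Finset.sum_le_sum fun j _ => ?_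
  by_cases hij : i = j
  · subst hij
    have : |x i| * |x i| = x i * x i := abs_mul_abs_self (x i)
    rw [mul_assoc, this, ← mul_assoc]
  · have h1 : x i * x j ≤ |x i| * |x j| := by
      rw [← abs_mul]
      exact le_abs_self _
    have h2 : d i * A i j ≤ 0 := mul_nonpos_of_nonneg_of_nonpos (hd i).le (hA i j hij)
    have h3 := mul_le_mul_of_nonpos_left h1 h2
    nlinarith [h3]

theorem D_abs (d x : Fin n → ℝ) : D d (fun i => |x i|) = D d x := by
  simp only [D, sq_abs]

theorem D_pos (d x : Fin n → ℝ) (hd : ∀ i, 0 < d i) (hx : x ≠ 0) : 0 < D d x := by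
  obtain ⟨i, hi⟩ := Function.ne_iff.1 hx
  simp only [Pi.zero_apply] at hi
  refine Finset.sum_pos' (fun j _ => mul_nonneg (hd j).le (sq_nonneg _)) ⟨i, Finset.mem_univ i, ?_⟩
  have := hd i
  positivity

theorem q_line (A : Matrix (Fin n) (Fin n) ℝ) (d x : Fin n → ℝ)
    (hs : ∀ i j, d i * A i j = d j * A j i) (k : Fin n) (t : ℝ) :
    q A d (x + t • Pi.single k 1) =
      d k * A k k * (t * t) + 2 * (d k * (A *ᵥ x) k) * t + q A d x := by
  have h1 : ∀ i, ∑ j, d i * A i j * (x + t • (Pi.single k (1 : ℝ) : Fin n → ℝ)) i *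
      (x + t • (Pi.single k (1 : ℝ) : Fin n → ℝ)) j =
      (x i + t * (Pi.single k (1 : ℝ) : Fin n → ℝ) i) * (d i * (A *ᵥ x) i + t * (d i * A i k)) := by
    intro i
    have : ∀ j, d i * A i j * (x + t • (Pi.single k (1 : ℝ) : Fin n → ℝ)) i *
        (x + t • (Pi.single k (1 : ℝ) : Fin n → ℝ)) j =
        (x i + t * (Pi.single k (1 : ℝ) : Fin n → ℝ) i) * d i * (A i j * x j) +
        (x i + t * (Pi.single k (1 : ℝ) : Fin n → ℝ) i) * d i * t *
          (A i j * (Pi.single k (1 : ℝ) : Fin n → ℝ) j) := by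
      intro j
      simp only [Pi.add_apply, Pi.smul_apply, smul_eq_mul]
      ring
    simp_rw [this]
    rw [Finset.sum_add_distrib, ← Finset.mul_sum, ← Finset.mul_sum]
    have h2 : ∑ j, A i j * (Pi.single k (1 : ℝ) : Fin n → ℝ) j = A i k := by
      simp [Pi.single_apply]
    have h3 : ∑ j, A i j * x j = (A *ᵥ x) i := rfl
    rw [h2, h3]
    ring
  have h0 : q A d x = ∑ i, x i * (d i * (A *ᵥ x) i) := by
    refine Finset.sum_congr rfl fun i _ => ?_
    have h3 : (A *ᵥ x) i = ∑ j, A i j * x j := rfl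
    rw [h3, Finset.mul_sum, Finset.mul_sum]
    refine Finset.sum_congr rfl fun j _ => ?_
    ring
  have h4 : ∑ i, x i * (t * (d i * A i k)) = t * (d k * (A *ᵥ x) k) := by
    have h3 : (A *ᵥ x) k = ∑ j, A k j * x j := rfl
    rw [h3, Finset.mul_sum, Finset.mul_sum]
    refine Finset.sum_congr rfl fun i _ => ?_
    rw [hs i k]
    ring
  unfold q at h0 ⊢
  rw [Finset.sum_congr rfl fun i _ => h1 i, h0]
  simp_rw [add_mul, mul_add]
  rw [Finset.sum_add_distrib, Finset.sum_add_distrib, Finset.sum_add_distrib, h4]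
  have h5 : ∑ i, t * (Pi.single k (1 : ℝ) : Fin n → ℝ) i * (d i * (A *ᵥ x) i) =
      t * (d k * (A *ᵥ x) k) := by
    rw [Finset.sum_eq_single k]
    · simp
    · intro b _ hb
      simp [hb]
    · simp
  have h6 : ∑ i, t * (Pi.single k (1 : ℝ) : Fin n → ℝ) i * (t * (d i * A i k)) =
      t * (t * (d k * A k k)) := by
    rw [Finset.sum_eq_single k]
    · simp
    · intro b _ hb
      simp [hb]
    · simp
  rw [h5, h6]
  ring

theorem D_line (d x : Fin n → ℝ) (k : Fin n) (t : ℝ) :
    D d (x + t • Pi.single k 1) = d k * (t * t) + 2 * (d k * x k) * t + D d x := by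
  unfold D
  have h1 : ∀ i, d i * (x + t • (Pi.single k (1 : ℝ) : Fin n → ℝ)) i ^ 2 = d i * x i ^ 2 +
      (2 * t * (d i * x i) + d i * (t * t)) * (Pi.single k (1 : ℝ) : Fin n → ℝ) i := by
    intro i
    by_cases hi : i = k
    · subst hi
      simp
      ring
    · simp [hi]
  simp_rw [h1]
  rw [Finset.sum_add_distrib]
  have h2 : ∑ i, (2 * t * (d i * x i) + d i * (t * t)) * (Pi.single k (1 : ℝ) : Fin n → ℝ) i =
      2 * t * (d k * x k) + d k * (t * t) := by
    rw [Finset.sum_eq_single k]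
    · simp
    · intro b _ hb
      simp [hb]
    · simp
  rw [h2]
  ring

theorem compact (d : Fin n → ℝ) (hd : ∀ i, 0 < d i) : IsCompact {x : Fin n → ℝ | D d x = 1} := by
  have hK : IsCompact (Set.univ.pi fun i : Fin n => Set.Icc (-(1 / d i + 1)) (1 / d i + 1)) :=
    isCompact_univ_pi fun i => isCompact_Icc
  refine hK.of_isClosed_subset ?_ ?_
  · refine isClosed_eq ?_ continuous_const
    unfold D
    fun_prop
  · intro x hx i _
    have h1 : d i * x i ^ 2 ≤ 1 := by
      rw [← show D d x = 1 from hx]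
      exact Finset.single_le_sum (f := fun i => d i * x i ^ 2)
        (fun j _ => mul_nonneg (hd j).le (sq_nonneg _)) (Finset.mem_univ i)
    have h2 : x i ^ 2 ≤ 1 / d i := by
      rw [le_div_iff₀ (hd i)]
      linarith
    have h3 : (0 : ℝ) < 1 / d i := one_div_pos.2 (hd i)
    have h4 : x i ^ 2 ≤ (1 / d i + 1) ^ 2 := by nlinarith
    exact abs_le.1 (abs_le_of_sq_le_sq h4 (by linarith))

theorem main : S_TRI := by
  intro n A d hd hs hA hI
  by_cases hq : ∀ x : Fin n → ℝ, 0 ≤ q A d x
  · exact Or.inl hq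
  · right
    push Not at hq
    obtain ⟨x₀, hx₀⟩ := hq
    have hx₀0 : x₀ ≠ 0 := by
      rintro rfl
      simp [q] at hx₀
    have hD₀ := D_pos d x₀ hd hx₀0
    have hc : ContinuousOn (q A d) {x : Fin n → ℝ | D d x = 1} := by
      apply Continuous.continuousOn
      unfold q
      fun_prop
    have hnorm : ∀ x : Fin n → ℝ, x ≠ 0 → D d ((Real.sqrt (D d x))⁻¹ • x) = 1 := by
      intro x hx
      have := D_pos d x hd hx
      rw [D_smul, inv_pow, Real.sq_sqrt this.le, inv_mul_cancel₀ this.ne']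
    obtain ⟨z, hz, hmin⟩ := (compact d hd).exists_isMinOn ⟨_, hnorm x₀ hx₀0⟩ hc
    obtain ⟨m, hm⟩ : ∃ m, m = q A d z := ⟨_, rfl⟩
    have hglob : ∀ x : Fin n → ℝ, m * D d x ≤ q A d x := by
      intro x
      by_cases hx : x = 0
      · subst hx
        simp [q, D]
      · have hDx := D_pos d x hd hx
        have h1 : m ≤ q A d ((Real.sqrt (D d x))⁻¹ • x) := by
          rw [hm]
          exact hmin (hnorm x hx)
        rw [q_smul, inv_pow, Real.sq_sqrt hDx.le, inv_mul_eq_div, le_div_iff₀ hDx] at h1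
        exact h1
    have hm0 : m < 0 := by
      have := hglob x₀
      by_contra hcon
      push Not at hcon
      nlinarith [mul_nonneg hcon hD₀.le]
    -- the nonnegative minimiser
    obtain ⟨y, hy⟩ : ∃ y : Fin n → ℝ, y = fun i => |z i| := ⟨_, rfl⟩
    have hy0 : ∀ i, 0 ≤ y i := fun i => by rw [hy]; exact abs_nonneg _
    have hyD : D d y = 1 := by rw [hy, D_abs]; exact hz
    have hyq : q A d y = m := by
      refine le_antisymm ?_ ?_
      · rw [hy, hm]
        exact q_abs A d z hd hA
      · have := hglob y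
        rwa [hyD, mul_one] at this
    have heig : ∀ k, (A *ᵥ y) k = m * y k := by
      intro k
      have h1 : ∀ t : ℝ, 0 ≤ (d k * A k k - m * d k) * (t * t) +
          (2 * (d k * (A *ᵥ y) k) - m * (2 * (d k * y k))) * t + 0 := by
        intro t
        have := hglob (y + t • Pi.single k 1)
        rw [q_line A d y hs k t, D_line, hyq, hyD] at this
        linarith
      have h2 := discrim_le_zero h1
      rw [discrim, mul_zero, sub_zero] at h2
      have h3 : 2 * (d k * (A *ᵥ y) k) - m * (2 * (d k * y k)) = 0 := by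
        have := sq_nonneg (2 * (d k * (A *ᵥ y) k) - m * (2 * (d k * y k)))
        exact pow_eq_zero_iff (two_ne_zero) |>.1 (le_antisymm h2 this)
      have h4 : d k * ((A *ᵥ y) k - m * y k) = 0 := by linarith
      rcases mul_eq_zero.1 h4 with h5 | h5
      · exact absurd h5 (hd k).ne'
      · linarith
    -- positivity
    have hpos : ∀ i, 0 < y i := by
      by_contra hcon
      push Not at hcon
      obtain ⟨i₀, hi₀⟩ := hcon
      obtain ⟨S, hS⟩ : ∃ S : Finset (Fin n), S = Finset.univ.filter fun i => y i = 0 := ⟨_, rfl⟩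
      have hSne : S.Nonempty := ⟨i₀, by
        rw [hS, Finset.mem_filter]
        exact ⟨Finset.mem_univ _, le_antisymm hi₀ (hy0 i₀)⟩⟩
      have hSu : S ≠ Finset.univ := by
        intro hSu
        have : y = 0 := by
          funext i
          have : i ∈ S := by rw [hSu]; exact Finset.mem_univ i
          rw [hS, Finset.mem_filter] at this
          exact this.2
        rw [this] at hyD
        simp [D] at hyD
      obtain ⟨i, hiS, j, hjS, hij⟩ := hI S hSne hSu
      have hyi : y i = 0 := by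
        rw [hS, Finset.mem_filter] at hiS
        exact hiS.2
      have hyj : 0 < y j := by
        refine lt_of_le_of_ne (hy0 j) fun h => hjS ?_
        rw [hS, Finset.mem_filter]
        exact ⟨Finset.mem_univ j, h.symm⟩
      have h1 : ∑ k, A i k * y k = 0 := by
        have := heig i
        rw [hyi, mul_zero] at this
        exact this
      have h2 : ∀ k ∈ Finset.univ, A i k * y k ≤ 0 := by
        intro k _
        by_cases hik : i = k
        · rw [← hik, hyi, mul_zero]
        · exact mul_nonpos_of_nonpos_of_nonneg (hA i k hik) (hy0 k)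
      have h3 := (Finset.sum_eq_zero_iff_of_nonpos h2).1 h1 j (Finset.mem_univ j)
      rcases mul_eq_zero.1 h3 with h4 | h4
      · exact hij h4
      · exact hyj.ne' h4
    exact ⟨y, hpos, fun i => by rw [heig i]; exact mul_neg_of_neg_of_pos hm0 (hpos i)⟩

end Pool.Agent.H28.CXR.TRI
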