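import Mathlib

/-!
# Project CXR (MP_6d22ea_nt): Coxeter polynomials of index `r`. Statements of the stubs.
-/

set_option autoImplicit false

namespace Pool.Agent.H28.CXR

open Matrix Polynomial Filter Topology
open scoped ComplexOrder

noncomputable section

variable {n : ℕ}

/-- the simple reflection `s_i x = x - (A x)_i e_i` -/
def refl (A : Matrix (Fin n) (Fin n) ℝ) (i : Fin n) (x : Fin n → ℝ) : Fin n → ℝ :=
  x - Pi.single i ((A *ᵥ x) i)

/-- the partial reflection `x - t (A x)_i e_i = (1 - t) x + t s_i x` -/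
def pref (A : Matrix (Fin n) (Fin n) ℝ) (t : ℝ) (i : Fin n) (x : Fin n → ℝ) : Fin n → ℝ :=
  x - Pi.single i (t * (A *ᵥ x) i)

/-- `act A [i_1, …, i_k] x = s_{i_1} (s_{i_2} (⋯ s_{i_k} x))` -/
def act (A : Matrix (Fin n) (Fin n) ℝ) : List (Fin n) → (Fin n → ℝ) → (Fin n → ℝ)
  | [], x => x
  | i :: l, x => refl A i (act A l x)

/-- real form of a crystallographic generalised Cartan matrix -/
structure GCM (A : Matrix (Fin n) (Fin n) ℝ) : Prop where
  diag : ∀ i, A i i = 2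
  off : ∀ i j, i ≠ j → A i j ≤ 0
  zero : ∀ i j, A i j = 0 → A j i = 0
  prod : ∀ i j, i ≠ j → A i j * A j i = 0 ∨ A i j * A j i = 1 ∨ A i j * A j i = 2 ∨
    A i j * A j i = 3 ∨ 4 ≤ A i j * A j i

/-- two words act in the same way -/
def Same (A : Matrix (Fin n) (Fin n) ℝ) (l l' : List (Fin n)) : Prop :=
  ∀ x, act A l x = act A l' x

/-- a word of minimal length for its action -/
def Reduced (A : Matrix (Fin n) (Fin n) ℝ) (l : List (Fin n)) : Prop :=
  ∀ l', Same A l l' → l.length ≤ l'.length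

/-- the alternating word of length `k` in the letters `i ≠ j` whose LAST letter is `j` -/
def alt (i j : Fin n) : ℕ → List (Fin n)
  | 0 => []
  | k + 1 => alt j i k ++ [j]

/-- upper triangular part with diagonal `1` -/
def up (A : Matrix (Fin n) (Fin n) ℝ) : Matrix (Fin n) (Fin n) ℝ :=
  Matrix.of fun i j => if i < j then A i j else if i = j then 1 else 0

/-- lower triangular part with diagonal `1` -/
def lo (A : Matrix (Fin n) (Fin n) ℝ) : Matrix (Fin n) (Fin n) ℝ :=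
  Matrix.of fun i j => if j < i then A i j else if i = j then 1 else 0

/-- the operator `- (up + e)⁻¹ (lo - e)`; for `e = 0` the Coxeter element -/
def opT (A : Matrix (Fin n) (Fin n) ℝ) (e : Fin n → ℝ) : Matrix (Fin n) (Fin n) ℝ :=
  -((up A + diagonal e)⁻¹ * (lo A - diagonal e))

/-! ## The stubs -/

/-- BR0: `A i j * A j i = 0`: the two reflections commute (`m = 2`). -/
def S_BR0 : Prop := ∀ (n : ℕ) (A : Matrix (Fin n) (Fin n) ℝ), GCM A → ∀ i j : Fin n, i ≠ j →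
  A i j * A j i = 0 → Same A (alt i j 2) (alt j i 2)

/-- BR1: `m = 3`. -/
def S_BR1 : Prop := ∀ (n : ℕ) (A : Matrix (Fin n) (Fin n) ℝ), GCM A → ∀ i j : Fin n, i ≠ j →
  A i j * A j i = 1 → Same A (alt i j 3) (alt j i 3)

/-- BR2: `m = 4`. -/
def S_BR2 : Prop := ∀ (n : ℕ) (A : Matrix (Fin n) (Fin n) ℝ), GCM A → ∀ i j : Fin n, i ≠ j →
  A i j * A j i = 2 → Same A (alt i j 4) (alt j i 4)

/-- BR3: `m = 6`. -/
def S_BR3 : Prop := ∀ (n : ℕ) (A : Matrix (Fin n) (Fin n) ℝ), GCM A → ∀ i j : Fin n, i ≠ j →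
  A i j * A j i = 3 → Same A (alt i j 6) (alt j i 6)

/-- DIH: alternating words of length `k < m` ending in `j` send `e_i` to a nonnegative combination of
`e_i` and `e_j`. -/
def S_DIH : Prop := ∀ (n : ℕ) (A : Matrix (Fin n) (Fin n) ℝ), GCM A → ∀ i j : Fin n, i ≠ j →
  ∀ k : ℕ, (A i j * A j i = 0 → k ≤ 1) → (A i j * A j i = 1 → k ≤ 2) →
    (A i j * A j i = 2 → k ≤ 3) → (A i j * A j i = 3 → k ≤ 5) →
    ∃ p q : ℝ, 0 ≤ p ∧ 0 ≤ q ∧
      act A (alt i j k) (Pi.single i 1) = p • (Pi.single i 1 : Fin n → ℝ) + q • Pi.single j 1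

/-- PAR: words with the same action have lengths of the same parity (each reflection has
determinant `-1`). -/
def S_PAR : Prop := ∀ (n : ℕ) (A : Matrix (Fin n) (Fin n) ℝ), (∀ i, A i i = 2) →
  ∀ l l' : List (Fin n), Same A l l' → l.length % 2 = l'.length % 2

/-- ALT: a reduced word in the letters `i`, `j` such that `u ++ [i]` is reduced is the alternating
word ending in `j` of length less than `m`. -/
def S_ALT : Prop := ∀ (n : ℕ) (A : Matrix (Fin n) (Fin n) ℝ), GCM A → ∀ i j : Fin n, i ≠ j →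
  ∀ u : List (Fin n), (∀ a ∈ u, a = i ∨ a = j) → Reduced A (u ++ [i]) →
    u = alt i j u.length ∧ (A i j * A j i = 0 → u.length ≤ 1) ∧ (A i j * A j i = 1 → u.length ≤ 2) ∧
    (A i j * A j i = 2 → u.length ≤ 3) ∧ (A i j * A j i = 3 → u.length ≤ 5)

/-- ROOT: (Humphreys, Theorem 5.4) if `l ++ [i]` is reduced then `l` sends `e_i` to a nonnegative
vector. -/
def S_ROOT : Prop := ∀ (n : ℕ) (A : Matrix (Fin n) (Fin n) ℝ), GCM A → ∀ (l : List (Fin n))
  (i : Fin n), Reduced A (l ++ [i]) → ∀ k, 0 ≤ act A l (Pi.single i 1) k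

/-- POS: an antidominant nonnegative vector `y` satisfies `u y ≥ y` for all words `u`. -/
def S_POS : Prop := ∀ (n : ℕ) (A : Matrix (Fin n) (Fin n) ℝ), GCM A → ∀ (l : List (Fin n))
  (y : Fin n → ℝ), (∀ i, 0 ≤ y i) → (∀ i, (A *ᵥ y) i ≤ 0) → ∀ i, y i ≤ act A l y i

/-- FOLD: the operator `opT A e` is the product of the partial reflections with parameters
`1 / (1 + e i)`. -/
def S_FOLD : Prop := ∀ (n : ℕ) (A : Matrix (Fin n) (Fin n) ℝ), (∀ i, A i i = 2) →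
  ∀ e : Fin n → ℝ, (∀ i, 0 ≤ e i) → ∀ x : Fin n → ℝ,
    opT A e *ᵥ x = (List.finRange n).foldr (fun i z => pref A (1 / (1 + e i)) i z) x

/-- ITER: the powers of `opT A e` send antidominant nonnegative vectors to nonnegative vectors. -/
def S_ITER : Prop := ∀ (n : ℕ) (A : Matrix (Fin n) (Fin n) ℝ), GCM A → ∀ e : Fin n → ℝ,
  (∀ i, 0 ≤ e i) → ∀ y : Fin n → ℝ, (∀ i, 0 ≤ y i) → (∀ i, (A *ᵥ y) i ≤ 0) →
    ∀ (m : ℕ) (i : Fin n), 0 ≤ ((opT A e) ^ m *ᵥ y) i

/-- PRI (Pringsheim): if the powers of `T` send `y₀` and all `y₀ + ε e_j` to nonnegative vectors and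
`T` has no real eigenvalue larger than `κ ≥ 0` then all complex eigenvalues are at most `κ` in
absolute value. -/
def S_PRI : Prop := ∀ (n : ℕ) (T : Matrix (Fin n) (Fin n) ℝ) (κ ε : ℝ) (y : Fin n → ℝ), 0 ≤ κ →
  0 < ε → (∀ s : ℝ, κ < s → (s • (1 : Matrix (Fin n) (Fin n) ℝ) - T).det ≠ 0) →
  (∀ (m : ℕ) (i : Fin n), 0 ≤ (T ^ m *ᵥ y) i) →
  (∀ (j : Fin n) (m : ℕ) (i : Fin n), 0 ≤ (T ^ m *ᵥ (y + Pi.single j ε)) i) →
  ∀ (z : ℂ) (x : Fin n → ℂ), x ≠ 0 → T.map Complex.ofRealHom *ᵥ x = z • x → ‖z‖ ≤ κ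

/-- RHO: the zeros of the absorbed Coxeter polynomial are at most `κ` in absolute value if there are
no real ones larger than `κ`. -/
def S_RHO : Prop := ∀ (n : ℕ) (A : Matrix (Fin n) (Fin n) ℝ), GCM A → ∀ e : Fin n → ℝ,
  (∀ i, 0 ≤ e i) → (∃ y : Fin n → ℝ, (∀ i, 0 < y i) ∧ ∀ i, (A *ᵥ y) i < 0) → ∀ κ : ℝ, 0 ≤ κ →
  (∀ s : ℝ, κ < s → (s • (up A + diagonal e) + (lo A - diagonal e)).det ≠ 0) →
  ∀ z : ℂ, (z • (up A + diagonal e).map Complex.ofRealHom +
    (lo A - diagonal e).map Complex.ofRealHom).det = 0 → ‖z‖ ≤ κ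

/-- CNT: a contraction for a Hermitian form with at most `r` negative squares has at most `r`
eigenvalues outside the unit circle, with multiplicities. -/
def S_CNT : Prop := ∀ (n r : ℕ) (T B : Matrix (Fin n) (Fin n) ℂ) (V : Matrix (Fin r) (Fin n) ℂ),
  B.IsHermitian →
  (∀ x : Fin n → ℂ, (star (T *ᵥ x) ⬝ᵥ B *ᵥ (T *ᵥ x)).re ≤ (star x ⬝ᵥ B *ᵥ x).re) →
  (B + Vᴴ * V).PosSemidef → (∀ x : Fin n → ℂ, B *ᵥ x = 0 → T *ᵥ x = x) →
  (T.charpoly.roots.filter fun z => 1 < ‖z‖).card ≤ r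

/-- DET: `|det H| ≤ |det (H + i e)|` for a Hermitian matrix `H` and a nonnegative diagonal
matrix `e`. -/
def S_DET : Prop := ∀ (n : ℕ) (H : Matrix (Fin n) (Fin n) ℂ) (e : Fin n → ℝ), H.IsHermitian →
  (∀ i, 0 ≤ e i) → ‖H.det‖ ≤ ‖(H + diagonal fun i => Complex.I * (e i : ℂ)).det‖

/-- indecomposable: no proper nonempty set of indices is separated from its complement -/
def Indec (A : Matrix (Fin n) (Fin n) ℝ) : Prop :=
  ∀ S : Finset (Fin n), S.Nonempty → S ≠ Finset.univ → ∃ i ∈ S, ∃ j, j ∉ S ∧ A i j ≠ 0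

/-- TRI: an indecomposable symmetrizable matrix with nonpositive entries outside the diagonal has a
positive semidefinite form or is of indefinite type. -/
def S_TRI : Prop := ∀ (n : ℕ) (A : Matrix (Fin n) (Fin n) ℝ) (d : Fin n → ℝ), (∀ i, 0 < d i) →
  (∀ i j, d i * A i j = d j * A j i) → (∀ i j, i ≠ j → A i j ≤ 0) → Indec A →
  (∀ x : Fin n → ℝ, 0 ≤ ∑ i, ∑ j, d i * A i j * x i * x j) ∨
    ∃ y : Fin n → ℝ, (∀ i, 0 < y i) ∧ ∀ i, (A *ᵥ y) i < 0

/-- TOP1: the Coxeter pencil of an indecomposable matrix of indefinite type has a positive null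
vector at some real `t > 1`. -/
def S_TOP1 : Prop := ∀ (n : ℕ) (A : Matrix (Fin n) (Fin n) ℝ) (d : Fin n → ℝ),
  (∀ i, A i i = 2) → (∀ i, 0 < d i) → (∀ i j, d i * A i j = d j * A j i) →
  (∀ i j, i ≠ j → A i j ≤ 0) → Indec A →
  (∃ y : Fin n → ℝ, (∀ i, 0 < y i) ∧ ∀ i, (A *ᵥ y) i < 0) →
  ∃ t : ℝ, 1 < t ∧ ∃ v : Fin n → ℝ, (∀ i, 0 < v i) ∧ (t • up A + lo A) *ᵥ v = 0

/-- TOP2: a singular irreducible matrix with nonpositive entries outside the diagonal and a positive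
null vector has nonsingular principal submatrices of the next smaller size. -/
def S_TOP2 : Prop := ∀ (n : ℕ) (K : Matrix (Fin (n + 1)) (Fin (n + 1)) ℝ),
  (∀ i j, i ≠ j → K i j ≤ 0) → Indec K → (∃ v : Fin (n + 1) → ℝ, (∀ i, 0 < v i) ∧ K *ᵥ v = 0) →
  ∀ i : Fin (n + 1), (K.submatrix i.succAbove i.succAbove).det ≠ 0

end

end Pool.Agent.H28.CXR
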