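import Pool.Agent.H28.L.R_pool_sql_team_seeded_9f66d723.W5h66.CX.G
import Pool.Agent.H28.CXR.Stm

/-!
# Assembly 1: number and size of the zeros of the absorbed Coxeter polynomials
-/

set_option autoImplicit false

namespace Pool.Agent.H28.CXR.Asm

open Matrix Polynomial Filter Topology MeasureTheory
open Pool.Agent.H261R2.CM (toC ez ev1 m1 mx1)
open Pool.Agent.W5h66.CX (pol pnc cox Wm Mt cm)
open scoped ComplexOrder

noncomputable section

variable {n r : ℕ}

/-- symmetrizable generalised Cartan matrices -/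
structure Car (A : Matrix (Fin n) (Fin n) ℤ) (d : Fin n → ℝ) : Prop where
  diag : ∀ i, A i i = 2
  off : ∀ i j, i ≠ j → A i j ≤ 0
  pos : ∀ i, 0 < d i
  symm : ∀ i j, d i * A i j = d j * A j i

variable {A : Matrix (Fin n) (Fin n) ℤ} {d : Fin n → ℝ}

theorem up_map (A : Matrix (Fin n) (Fin n) ℤ) :
    (Pool.Agent.W5h66.CX.up A).map (Int.castRingHom ℝ) = up (A.map (Int.castRingHom ℝ)) := by
  ext i j
  simp only [Pool.Agent.W5h66.CX.up, up, Matrix.map_apply, Matrix.of_apply]
  split_ifs <;> simp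

theorem lo_map (A : Matrix (Fin n) (Fin n) ℤ) :
    (Pool.Agent.W5h66.CX.lo A).map (Int.castRingHom ℝ) = lo (A.map (Int.castRingHom ℝ)) := by
  ext i j
  simp only [Pool.Agent.W5h66.CX.lo, lo, Matrix.map_apply, Matrix.of_apply]
  split_ifs <;> simp

theorem Car.gcm (h : Car A d) : GCM (A.map (Int.castRingHom ℝ)) where
  diag i := by simp [h.diag i]
  off i j hij := by
    have := h.off i j hij
    simp only [Matrix.map_apply, eq_intCast]
    exact_mod_cast this
  zero i j hij := by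
    simp only [Matrix.map_apply, eq_intCast] at hij ⊢
    have h1 := h.symm i j
    rw [hij, mul_zero] at h1
    exact (mul_eq_zero.mp h1.symm).resolve_left (h.pos j).ne'
  prod i j hij := by
    have h1 := h.off i j hij
    have h2 := h.off j i (Ne.symm hij)
    have h3 : 0 ≤ A i j * A j i := mul_nonneg_of_nonpos_of_nonpos h1 h2
    simp only [Matrix.map_apply, eq_intCast]
    have h4 : A i j * A j i = 0 ∨ A i j * A j i = 1 ∨ A i j * A j i = 2 ∨ A i j * A j i = 3 ∨
        4 ≤ A i j * A j i := by omega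
    rcases h4 with h4 | h4 | h4 | h4 | h4
    · left; exact_mod_cast h4
    · right; left; exact_mod_cast h4
    · right; right; left; exact_mod_cast h4
    · right; right; right; left; exact_mod_cast h4
    · right; right; right; right; exact_mod_cast h4

theorem Car.tr (h : Car A d) : (Wm A d)ᵀ =
    diagonal d * (Pool.Agent.W5h66.CX.lo A).map (Int.castRingHom ℝ) := by
  ext i j
  simp only [Wm, Matrix.transpose_apply, Matrix.diagonal_mul, Matrix.map_apply,
    Pool.Agent.W5h66.CX.up, Pool.Agent.W5h66.CX.lo, Matrix.of_apply]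
  rcases lt_trichotomy i j with hij | hij | hij
  · simp [hij.not_gt, hij.ne, hij.ne']
  · subst hij
    simp
  · rw [if_pos hij, if_pos hij]
    simpa using h.symm j i

theorem Car.form (h : Car A d) (x : Fin n → ℝ) :
    x ⬝ᵥ (Wm A d + (Wm A d)ᵀ) *ᵥ x = ∑ i, ∑ j, d i * A i j * x i * x j := by
  rw [h.tr]
  simp only [dotProduct, mulVec, Finset.mul_sum]
  refine Finset.sum_congr rfl fun i _ => Finset.sum_congr rfl fun j _ => ?_
  simp only [Matrix.add_apply, Wm, Matrix.diagonal_mul, Matrix.map_apply,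
    Pool.Agent.W5h66.CX.up, Pool.Agent.W5h66.CX.lo, Matrix.of_apply]
  rcases lt_trichotomy i j with hij | hij | hij
  · simp [hij, hij.not_gt, hij.ne]
    ring
  · subst hij
    simp [h.diag i]
    ring
  · simp [hij, hij.not_gt, hij.ne']
    ring

theorem Car.W_sub (h : Car A d) (e : Fin n → ℝ) :
    (Wm A d)ᵀ - diagonal (fun i => e i * d i) =
      diagonal d * ((Pool.Agent.W5h66.CX.lo A).map (Int.castRingHom ℝ) - diagonal e) := by
  rw [h.tr, Matrix.mul_sub, Matrix.diagonal_mul_diagonal]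
  congr 2
  ext i
  ring

theorem Car.pnc_eq (h : Car A d) (e : Fin n → ℝ) :
    pnc (Wm A d + diagonal fun i => e i * d i) ((Wm A d)ᵀ - diagonal fun i => e i * d i) =
      C (∏ i, d i) * pnc ((Pool.Agent.W5h66.CX.up A).map (Int.castRingHom ℝ) + diagonal e)
        ((Pool.Agent.W5h66.CX.lo A).map (Int.castRingHom ℝ) - diagonal e) := by
  refine Polynomial.funext fun t => ?_
  rw [eval_mul, eval_C, Pool.Agent.W5h66.CX.pnc_eval, Pool.Agent.W5h66.CX.pnc_eval,
    Pool.Agent.W5h66.CX.W_add, h.W_sub, ← Matrix.mul_smul, ← Matrix.mul_add,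
    Matrix.det_mul, Matrix.det_diagonal]

theorem Car.prod_pos (h : Car A d) : 0 < ∏ i, d i := Finset.prod_pos fun i _ => h.pos i

/-- **At most `r` roots outside the unit circle.** -/
theorem card_pnc (hC : S_CNT) (W : Matrix (Fin n) (Fin n) ℝ) (V : Matrix (Fin r) (Fin n) ℝ)
    (hV : ∀ x : Fin n → ℝ, 0 ≤ x ⬝ᵥ (W + Wᵀ) *ᵥ x + ∑ k, ((V *ᵥ x) k) ^ 2)
    (e : Fin n → ℝ) (he : ∀ i, 0 ≤ e i) (hdet : (W + diagonal e).det ≠ 0) :
    (((pnc (W + diagonal e) (Wᵀ - diagonal e)).map Complex.ofRealHom).roots.filter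
      fun z => 1 < ‖z‖).card ≤ r := by
  set X := cm (W + diagonal e) with hX
  set Y := cm (Wᵀ - diagonal e) with hY
  have hXd : X.det ≠ 0 := by
    rw [hX, cm, ← RingHom.mapMatrix_apply, ← RingHom.map_det]
    simpa using hdet
  have hXu : IsUnit X.det := isUnit_iff_ne_zero.mpr hXd
  set T : Matrix (Fin n) (Fin n) ℂ := -(X⁻¹ * Y) with hT
  have hXT : X * T = -Y := by
    rw [hT, Matrix.mul_neg, ← Matrix.mul_assoc, Matrix.mul_nonsing_inv _ hXu, Matrix.one_mul]
  have hpoly : (pnc (W + diagonal e) (Wᵀ - diagonal e)).map Complex.ofRealHom =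
      C X.det * T.charpoly := by
    rw [Pool.Agent.W5h66.CX.pnc_map]
    change pnc X Y = _
    refine Polynomial.funext fun z => ?_
    rw [Pool.Agent.W5h66.CX.pnc_eval, eval_mul, eval_C, Matrix.eval_charpoly, ← Matrix.det_mul,
      Matrix.mul_sub, hXT, sub_neg_eq_add]
    congr 2
    rw [Matrix.scalar_apply, ← Matrix.smul_one_eq_diagonal, Matrix.mul_smul, Matrix.mul_one]
  rw [hpoly, roots_C_mul _ hXd]
  set B : Matrix (Fin n) (Fin n) ℂ := X + Y with hB
  have hBr : B = cm (W + Wᵀ) := by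
    rw [hB, hX, hY]
    ext i j
    simp [cm]
  have hBh : B.IsHermitian := by
    rw [hBr]
    ext i j
    simp [cm, add_comm]
  have hY2 : Y = Xᴴ - cm (diagonal fun i => 2 * e i) := by
    rw [hX, hY]
    ext i j
    by_cases hij : i = j
    · subst hij
      simp [cm]
      ring
    · simp [cm, Matrix.diagonal_apply_ne _ hij, Matrix.diagonal_apply_ne _ (Ne.symm hij)]
  refine hC n r T B (V.map Complex.ofRealHom) hBh ?_ ?_ ?_
  · intro x
    set u := x - T *ᵥ x with hu
    have hXux : X *ᵥ u = B *ᵥ x := by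
      rw [hu, mulVec_sub, mulVec_mulVec, hXT, hB, neg_mulVec, add_mulVec, sub_neg_eq_add]
    have hTx : T *ᵥ x = x - u := by rw [hu]; abel
    rw [hTx]
    have e1 : star (x - u) ⬝ᵥ B *ᵥ (x - u) = star x ⬝ᵥ B *ᵥ x - star u ⬝ᵥ B *ᵥ x -
        star x ⬝ᵥ B *ᵥ u + star u ⬝ᵥ B *ᵥ u := by
      rw [star_sub, mulVec_sub, sub_dotProduct, dotProduct_sub, dotProduct_sub]
      ring
    have e2 : star x ⬝ᵥ B *ᵥ u = star (star u ⬝ᵥ B *ᵥ x) := by
      nth_rewrite 1 [← hBh.eq]
      rw [dotProduct_mulVec, ← star_mulVec, ← star_dotProduct_star, star_star, dotProduct_comm]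
    have e3 : star u ⬝ᵥ B *ᵥ u = star u ⬝ᵥ X *ᵥ u + star (star u ⬝ᵥ X *ᵥ u) -
        star u ⬝ᵥ cm (diagonal fun i => 2 * e i) *ᵥ u := by
      rw [hB, hY2, add_mulVec, sub_mulVec, dotProduct_add, dotProduct_sub,
        Pool.Agent.W5h66.CX.star_form]
      ring
    have e4 : 0 ≤ (star u ⬝ᵥ cm (diagonal fun i => 2 * e i) *ᵥ u).re := by
      rw [Pool.Agent.W5h66.CX.re_form]
      have h0 : ∀ y : Fin n → ℝ, 0 ≤ y ⬝ᵥ (diagonal fun i => 2 * e i) *ᵥ y := by
        intro y
        unfold dotProduct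
        refine Finset.sum_nonneg fun i _ => ?_
        rw [mulVec_diagonal]
        nlinarith [he i, mul_self_nonneg (y i), mul_nonneg (he i) (mul_self_nonneg (y i))]
      exact add_nonneg (h0 _) (h0 _)
    rw [e1, e2, e3, ← hXux]
    simp only [Complex.add_re, Complex.sub_re, Complex.star_def, Complex.conj_re]
    linarith
  · set M : Matrix (Fin n) (Fin n) ℝ := (W + Wᵀ) + Vᵀ * V with hM
    have h3 : ∀ y : Fin n → ℝ, 0 ≤ y ⬝ᵥ M *ᵥ y := by
      intro y
      have h2 := hV y
      have h3 : y ⬝ᵥ M *ᵥ y = y ⬝ᵥ (W + Wᵀ) *ᵥ y + ∑ k, ((V *ᵥ y) k) ^ 2 := by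
        rw [hM, add_mulVec, dotProduct_add]
        congr 1
        rw [← mulVec_mulVec, dotProduct_mulVec, ← mulVec_transpose, transpose_transpose]
        simp only [dotProduct]
        exact Finset.sum_congr rfl fun k _ => by ring
      rw [h3]
      exact h2
    have h4 : B + (V.map Complex.ofRealHom)ᴴ * V.map Complex.ofRealHom = cm M := by
      have e2 : (V.map Complex.ofRealHom)ᴴ = (Vᵀ).map Complex.ofRealHom := by
        ext i j
        simp
      rw [hBr, e2, ← Matrix.map_mul, hM]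
      unfold cm
      exact (Matrix.map_add _ (fun a b => map_add _ a b) _ _).symm
    have h5 : (cm M).IsHermitian := by
      rw [hM]
      ext i j
      simp [cm, Matrix.mul_apply, add_comm, mul_comm]
    rw [h4]
    refine Matrix.PosSemidef.of_dotProduct_mulVec_nonneg h5 fun x => ?_
    rw [Complex.nonneg_iff]
    refine ⟨?_, (h5.im_star_dotProduct_mulVec_self x).symm⟩
    rw [Pool.Agent.W5h66.CX.re_form]
    exact add_nonneg (h3 _) (h3 _)
  · intro x hx
    have hXux : X *ᵥ (x - T *ᵥ x) = 0 := by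
      rw [mulVec_sub, mulVec_mulVec, hXT, neg_mulVec, sub_neg_eq_add, ← add_mulVec, ← hB, hx]
    have h0 : x - T *ᵥ x = 0 := by
      have h1 : X⁻¹ *ᵥ (X *ᵥ (x - T *ᵥ x)) = x - T *ᵥ x := by
        rw [mulVec_mulVec, Matrix.nonsing_inv_mul _ hXu, one_mulVec]
      rw [← h1, hXux, mulVec_zero]
    exact (sub_eq_zero.mp h0).symm

/-- at most `r` roots outside the unit circle -/
theorem Car.card (hC : S_CNT) (h : Car A d) (V : Fin r → Fin n → ℝ)
    (hV : ∀ x : Fin n → ℝ, 0 ≤ ∑ i, ∑ j, d i * A i j * x i * x j + ∑ k, (∑ i, V k i * x i) ^ 2)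
    (e : Fin n → ℤ) (he : ∀ i, 0 ≤ e i) :
    ((toC (pol A e)).roots.filter fun z => 1 < ‖z‖).card ≤ r := by
  have h1 := card_pnc hC (Wm A d) (Matrix.of V) (fun x => by
    rw [h.form x]
    exact hV x) (fun i => (e i : ℝ) * d i)
    (fun i => mul_nonneg (by exact_mod_cast he i) (h.pos i).le) (by
      rw [Pool.Agent.W5h66.CX.W_add, Matrix.det_mul, Matrix.det_diagonal,
        Pool.Agent.W5h66.CX.det_up_real]
      refine mul_ne_zero h.prod_pos.ne' (Finset.prod_pos fun i _ => ?_).ne'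
      have : (0 : ℝ) ≤ e i := by exact_mod_cast he i
      linarith)
  rw [h.pnc_eq, ← Pool.Agent.W5h66.CX.pol_real, Polynomial.map_mul, Polynomial.map_C,
    roots_C_mul] at h1
  · rw [Pool.Agent.W5h66.CX.toC_eq]
    exact h1
  · rw [Complex.ofRealHom_eq_coe]
    exact_mod_cast h.prod_pos.ne'

/-- roots of a monic polynomial are at most its measure -/
theorem root_le (P : ℤ[X]) (hP : P.Monic) (z : ℂ) (hz : (toC P).eval z = 0) : ‖z‖ ≤ m1 P := by
  have h0 : toC P ≠ 0 := by
    unfold toC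
    exact (Polynomial.map_ne_zero_iff (RingHom.injective_int _)).mpr hP.ne_zero
  change ‖z‖ ≤ (toC P).mahlerMeasure
  rw [Polynomial.mahlerMeasure_eq_leadingCoeff_mul_prod_roots]
  have h1 : (toC P).leadingCoeff = 1 := by
    unfold toC
    exact hP.map _
  rw [h1, norm_one, one_mul]
  have h2 : z ∈ (toC P).roots := (mem_roots h0).mpr hz
  obtain ⟨s, hs⟩ := Multiset.exists_cons_of_mem h2
  rw [hs, Multiset.map_cons, Multiset.prod_cons]
  have h3 : 1 ≤ (s.map fun a => max 1 ‖a‖).prod := by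
    clear hs
    induction s using Multiset.induction_on with
    | empty => simp
    | cons a s ih =>
      rw [Multiset.map_cons, Multiset.prod_cons]
      exact one_le_mul_of_one_le_of_one_le (le_max_left _ _) ih
  calc ‖z‖ ≤ max 1 ‖z‖ := le_max_right _ _
    _ = max 1 ‖z‖ * 1 := (mul_one _).symm
    _ ≤ _ := mul_le_mul_of_nonneg_left h3 (by positivity)

/-- all roots at most `K`, at most `r` outside: the measure -/
theorem measure_le (P : ℤ[X]) (K : ℝ) (hK : 1 ≤ K)
    (h1 : ∀ z ∈ (toC P).roots, ‖z‖ ≤ K) :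
    m1 P ≤ ‖(toC P).leadingCoeff‖ * K ^ ((toC P).roots.filter fun z => 1 < ‖z‖).card := by
  change (toC P).mahlerMeasure ≤ _
  rw [Polynomial.mahlerMeasure_eq_leadingCoeff_mul_prod_roots]
  refine mul_le_mul_of_nonneg_left ?_ (norm_nonneg _)
  generalize (toC P).roots = s at h1
  induction s using Multiset.induction_on with
  | empty => simp
  | cons a s ih =>
    rw [Multiset.map_cons, Multiset.prod_cons]
    have h2 := ih fun z hz => h1 z (Multiset.mem_cons_of_mem hz)
    have h3 := h1 a (Multiset.mem_cons_self a s)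
    have h4 : 0 ≤ (s.map fun a => max 1 ‖a‖).prod := by
      refine Multiset.prod_nonneg ?_
      intro x hx
      obtain ⟨b, _, rfl⟩ := Multiset.mem_map.mp hx
      positivity
    by_cases ha : 1 < ‖a‖
    · rw [Multiset.filter_cons_of_pos (p := fun z : ℂ => 1 < ‖z‖) s ha, Multiset.card_cons, pow_succ,
        mul_comm (K ^ _)]
      refine mul_le_mul (max_le hK h3) h2 h4 (by linarith)
    · rw [Multiset.filter_cons_of_neg (p := fun z : ℂ => 1 < ‖z‖) s ha, max_eq_left (not_lt.mp ha),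
        one_mul]
      exact h2

end

end Pool.Agent.H28.CXR.Asm
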