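import Pool.Agent.H28.CXR.Asm1

/-!
# Assembly 2: size of the zeros, inequality on the circle, companions
-/

set_option autoImplicit false

namespace Pool.Agent.H28.CXR.Asm

open Matrix Polynomial Filter Topology MeasureTheory
open Pool.Agent.H261R2.CM (toC ez ev1 m1 mx1 D_norm_ez D_log_m1 D_intervalIntegrable_log D_ae_ne)
open Pool.Agent.W5h66.CX (pol pnc cox Wm Mt cm)
open Pool.Agent.Y820.LB (Dom Good)

noncomputable section

variable {n r : ℕ} {A : Matrix (Fin n) (Fin n) ℤ} {d : Fin n → ℝ}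

theorem pol_eval (A : Matrix (Fin n) (Fin n) ℤ) (e : Fin n → ℤ) (z : ℂ) :
    (toC (pol A e)).eval z =
      (z • ((up (A.map (Int.castRingHom ℝ)) + diagonal fun i => (e i : ℝ)).map
        Complex.ofRealHom) + (lo (A.map (Int.castRingHom ℝ)) -
          diagonal fun i => (e i : ℝ)).map Complex.ofRealHom).det := by
  rw [Pool.Agent.W5h66.CX.toC_eq, Pool.Agent.W5h66.CX.pol_real, Pool.Agent.W5h66.CX.pnc_map,
    Pool.Agent.W5h66.CX.pnc_eval, up_map, lo_map]

theorem Mt_eq (A : Matrix (Fin n) (Fin n) ℤ) (e : Fin n → ℝ) (s : ℝ) :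
    s • (up (A.map (Int.castRingHom ℝ)) + diagonal e) +
      (lo (A.map (Int.castRingHom ℝ)) - diagonal e) = Mt A s + diagonal fun i => (s - 1) * e i := by
  unfold Mt
  rw [up_map, lo_map]
  ext i j
  by_cases hij : i = j
  · subst hij
    simp
    ring
  · simp [Matrix.diagonal_apply_ne _ hij]

/-- no real zeros to the right of the measure -/
theorem no_real {A : Matrix (Fin n) (Fin n) ℤ} (hA : ∀ i j, i ≠ j → A i j ≤ 0) (e : Fin n → ℝ)
    (he : ∀ i, 0 ≤ e i) (s : ℝ) (hs : m1 (cox A) < s) :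
    (s • (up (A.map (Int.castRingHom ℝ)) + diagonal e) +
      (lo (A.map (Int.castRingHom ℝ)) - diagonal e)).det ≠ 0 := by
  rcases n with _ | n
  · rw [Matrix.det_isEmpty]
    exact one_ne_zero
  have h1 := Pool.Agent.W5h66.CX.Dat.one_le A
  rw [Mt_eq]
  have hno : ∀ t, s ≤ t → (Mt A t).det ≠ 0 := by
    intro t ht h0
    rw [← Pool.Agent.W5h66.CX.cox_eval_real] at h0
    have h2 : (toC (cox A)).eval (t : ℂ) = 0 := by
      rw [Pool.Agent.W5h66.CX.toC_eq, eval_map, ← Complex.ofRealHom_eq_coe t, eval₂_at_apply, h0,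
        map_zero]
    have h3 := root_le _ (Pool.Agent.W5h66.CX.cox_monic A) _ h2
    rw [Complex.norm_real, Real.norm_eq_abs, abs_of_pos (by linarith)] at h3
    linarith
  obtain ⟨y, hy, hMy⟩ := Pool.Agent.W5h66.CX.pos_vector hA s (by linarith) hno
  refine Pool.Agent.W5h66.CX.det_ne_of_pos _ ?_ y hy ?_
  · intro i j hij
    rw [Matrix.add_apply, Matrix.diagonal_apply_ne _ hij, add_zero]
    exact Pool.Agent.W5h66.CX.Mt_off A hA s (by linarith) i j hij
  · intro i
    rw [add_mulVec, Pi.add_apply, mulVec_diagonal]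
    have h4 : 0 ≤ (s - 1) * e i * y i :=
      mul_nonneg (mul_nonneg (by linarith) (he i)) (hy i).le
    linarith [hMy i]

/-- **The size of the zeros of the absorbed Coxeter polynomials.** -/
theorem Car.rho (hR : S_RHO) (h : Car A d)
    (hy : ∃ y : Fin n → ℝ, (∀ i, 0 < y i) ∧ ∀ i, (A.map (Int.castRingHom ℝ) *ᵥ y) i < 0)
    (e : Fin n → ℤ) (he : ∀ i, 0 ≤ e i) (z : ℂ) (hz : (toC (pol A e)).eval z = 0) :
    ‖z‖ ≤ m1 (cox A) := by
  rw [pol_eval] at hz
  have he' : ∀ i, (0 : ℝ) ≤ (e i : ℝ) := fun i => by exact_mod_cast he i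
  exact hR n _ h.gcm (fun i => (e i : ℝ)) he' hy (m1 (cox A))
    (by have := Pool.Agent.W5h66.CX.Dat.one_le A; linarith)
    (fun s hs => no_real h.off _ he' s hs) z hz

/-- the determinant of the symmetrised pencil -/
theorem Car.sym_det (h : Car A d) (e : Fin n → ℤ) (w : ℂ) (hw : ‖w‖ = 1) :
    (w • (cm (Wm A d) + cm (diagonal fun i => (e i : ℝ) * d i)) +
      star w • (cm (Wm A d)ᵀ - cm (diagonal fun i => (e i : ℝ) * d i))).det * w ^ n =
      (∏ i, (d i : ℂ)) * (toC (pol A e)).eval (w ^ 2) := by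
  have hw1 : w * star w = 1 := by
    rw [Complex.star_def, Complex.mul_conj, Complex.normSq_eq_norm_sq, hw]
    simp
  have h1 : w • (w • (cm (Wm A d) + cm (diagonal fun i => (e i : ℝ) * d i)) +
      star w • (cm (Wm A d)ᵀ - cm (diagonal fun i => (e i : ℝ) * d i))) =
      (w ^ 2) • cm (Wm A d + diagonal fun i => (e i : ℝ) * d i) +
        cm ((Wm A d)ᵀ - diagonal fun i => (e i : ℝ) * d i) := by
    rw [smul_add, smul_smul, smul_smul, hw1, one_smul, ← pow_two]
    congr 1
    · congr 1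
      unfold cm
      exact (Matrix.map_add _ (fun a b => map_add _ a b) _ _).symm
    · unfold cm
      exact (Matrix.map_sub _ (fun a b => map_sub _ a b) _ _).symm
  have h2 := congrArg Matrix.det h1
  rw [Matrix.det_smul, Fintype.card_fin] at h2
  rw [mul_comm, h2]
  have h3 := congrArg (fun p : ℝ[X] => (p.map Complex.ofRealHom).eval (w ^ 2))
    (h.pnc_eq fun i => (e i : ℝ))
  simp only [Polynomial.map_mul, Polynomial.map_C, eval_mul, eval_C] at h3
  rw [Pool.Agent.W5h66.CX.pnc_map, Pool.Agent.W5h66.CX.pnc_eval,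
    ← Pool.Agent.W5h66.CX.pol_real, ← Pool.Agent.W5h66.CX.toC_eq] at h3
  unfold cm
  rw [h3]
  congr 1
  simp

/-- **The inequality on the circle.** -/
theorem Car.circle_le (hD : S_DET) (h : Car A d) (e : Fin n → ℤ) (he : ∀ i, 0 ≤ e i) (z : ℂ)
    (hz : ‖z‖ = 1) : ‖(toC (cox A)).eval z‖ ≤ ‖(toC (pol A e)).eval z‖ := by
  obtain ⟨w, hwz, hwi⟩ : ∃ w : ℂ, w ^ 2 = z ∧ 0 ≤ w.im := by
    obtain ⟨w, hw⟩ := IsAlgClosed.exists_pow_nat_eq z (n := 2) (by norm_num)
    rcases le_total 0 w.im with h1 | h1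
    · exact ⟨w, hw, h1⟩
    · exact ⟨-w, by rw [neg_pow_two]; exact hw, by simpa using h1⟩
  have hw1 : ‖w‖ = 1 := by
    have h1 : ‖w‖ ^ 2 = 1 := by rw [← norm_pow, hwz, hz]
    exact (pow_eq_one_iff_of_nonneg (norm_nonneg _) (by norm_num)).mp h1
  have hs := h.sym_det e w hw1
  have h0 := h.sym_det 0 w hw1
  set H : Matrix (Fin n) (Fin n) ℂ := w • cm (Wm A d) + star w • cm (Wm A d)ᵀ with hH
  have hHh : H.IsHermitian := by
    rw [hH]
    ext i j
    simp [cm, Matrix.conjTranspose_apply]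
    ring
  have e0 : w • (cm (Wm A d) + cm (diagonal fun i => (((0 : Fin n → ℤ) i : ℤ) : ℝ) * d i)) +
      star w • (cm (Wm A d)ᵀ - cm (diagonal fun i => (((0 : Fin n → ℤ) i : ℤ) : ℝ) * d i)) = H := by
    rw [hH]
    have h3 : (diagonal fun i => (((0 : Fin n → ℤ) i : ℤ) : ℝ) * d i) = 0 := by
      ext i j
      by_cases hij : i = j
      · subst hij; simp
      · simp [Matrix.diagonal_apply_ne _ hij]
    rw [h3]
    have h4 : cm (0 : Matrix (Fin n) (Fin n) ℝ) = 0 := by
      ext i j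
      simp [cm]
    rw [h4, add_zero, sub_zero]
  have e1 : w • (cm (Wm A d) + cm (diagonal fun i => (e i : ℝ) * d i)) +
      star w • (cm (Wm A d)ᵀ - cm (diagonal fun i => (e i : ℝ) * d i)) =
      H + diagonal fun i => Complex.I * ((2 * w.im * ((e i : ℝ) * d i) : ℝ) : ℂ) := by
    rw [hH]
    ext i j
    by_cases hij : i = j
    · subst hij
      simp only [cm, Matrix.add_apply, Matrix.smul_apply, Matrix.sub_apply, Matrix.map_apply,
        Matrix.diagonal_apply_eq, Matrix.transpose_apply, smul_eq_mul, Complex.ofRealHom_eq_coe]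
      have h5 : w - star w = 2 * Complex.I * (w.im : ℂ) := by
        apply Complex.ext
        · simp
        · simp; ring
      push_cast
      linear_combination ((e i : ℂ) * (d i : ℂ)) * h5
    · simp [cm, Matrix.diagonal_apply_ne _ hij]
  rw [e0] at h0
  rw [e1] at hs
  have h6 := hD n H (fun i => 2 * w.im * ((e i : ℝ) * d i)) hHh fun i =>
    mul_nonneg (by linarith) (mul_nonneg (by exact_mod_cast he i) (h.pos i).le)
  have h7 : 0 < ‖∏ i, (d i : ℂ)‖ := by
    rw [norm_pos_iff]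
    exact Finset.prod_ne_zero_iff.mpr fun i _ => by exact_mod_cast (h.pos i).ne'
  have h8 := congrArg norm hs
  have h9 := congrArg norm h0
  rw [norm_mul, norm_pow, hw1, one_pow, mul_one, norm_mul, hwz] at h8 h9
  refine le_of_mul_le_mul_left ?_ h7
  change ‖∏ i, (d i : ℂ)‖ * ‖(toC (pol A 0)).eval z‖ ≤ _
  rw [← h8, ← h9]
  exact h6

/-- the measure of the absorbed polynomial -/
theorem Car.measure (hC : S_CNT) (h : Car A d) (V : Fin r → Fin n → ℝ)
    (hV : ∀ x : Fin n → ℝ, 0 ≤ ∑ i, ∑ j, d i * A i j * x i * x j + ∑ k, (∑ i, V k i * x i) ^ 2)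
    (e : Fin n → ℤ) (he : ∀ i, 0 ≤ e i)
    (hz : ∀ z : ℂ, (toC (pol A e)).eval z = 0 → ‖z‖ ≤ m1 (cox A)) :
    m1 (pol A e) ≤ (∏ i, (1 + (e i : ℝ))) * m1 (cox A) ^ r := by
  have h1 := Pool.Agent.W5h66.CX.Dat.one_le A
  have h0 : toC (pol A e) ≠ 0 := by
    unfold toC
    exact (Polynomial.map_ne_zero_iff (RingHom.injective_int _)).mpr
      (Pool.Agent.W5h66.CX.pol_ne A e he)
  have h2 := measure_le (pol A e) (m1 (cox A)) h1 fun z hz' => hz z ((mem_roots h0).mp hz')
  refine h2.trans ?_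
  have h3 : ‖(toC (pol A e)).leadingCoeff‖ = ∏ i, (1 + (e i : ℝ)) := by
    have h4 : (toC (pol A e)).leadingCoeff = Int.castRingHom ℂ (pol A e).leadingCoeff := by
      unfold toC
      exact leadingCoeff_map_of_injective (RingHom.injective_int _) _
    rw [h4, Pool.Agent.W5h66.CX.pol_lead A e he]
    have h5 : (Int.castRingHom ℂ) (∏ i, (1 + e i)) = ((∏ i, (1 + (e i : ℝ)) : ℝ) : ℂ) := by
      rw [map_prod]
      push_cast
      exact Finset.prod_congr rfl fun i _ => by simp
    rw [h5, Complex.norm_real, Real.norm_eq_abs, abs_of_nonneg]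
    refine Finset.prod_nonneg fun i _ => ?_
    have : (0 : ℝ) ≤ e i := by exact_mod_cast he i
    linarith
  rw [h3]
  refine mul_le_mul_of_nonneg_left ?_ ?_
  · exact pow_le_pow_right₀ h1 (h.card hC V hV e he)
  · refine Finset.prod_nonneg fun i _ => ?_
    have : (0 : ℝ) ≤ e i := by exact_mod_cast he i
    linarith

/-- **The companion.** -/
theorem Car.good (hC : S_CNT) (hD : S_DET) (h : Car A d) (V : Fin r → Fin n → ℝ)
    (hV : ∀ x : Fin n → ℝ, 0 ≤ ∑ i, ∑ j, d i * A i j * x i * x j + ∑ k, (∑ i, V k i * x i) ^ 2)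
    (e : Fin n → ℤ) (he : ∀ i, 0 ≤ e i)
    (hz : ∀ z : ℂ, (toC (pol A e)).eval z = 0 → ‖z‖ ≤ m1 (cox A))
    (hcop : ∀ z : ℂ, 1 < ‖z‖ → (toC (cox A)).eval z = 0 → (toC (pol A e)).eval z ≠ 0)
    (c : ℝ) (hc : Real.log 2 + Real.log (∏ i, (1 + (e i : ℝ))) + r * Real.log (m1 (cox A)) ≤ c) :
    Good c (cox A) := by
  have hF := Pool.Agent.W5h66.CX.Dat.one_le A
  have hP0 : pol A e ≠ 0 := Pool.Agent.W5h66.CX.pol_ne A e he
  have hprod : (0 : ℝ) < ∏ i, (1 + (e i : ℝ)) := by
    refine Finset.prod_pos fun i _ => ?_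
    have : (0 : ℝ) ≤ e i := by exact_mod_cast he i
    linarith
  refine ⟨Pool.Agent.W5h66.CX.cox_monic A, pol A e, fun t => ev1 (pol A e) t / ev1 (cox A) t,
    ?_, ?_, hcop⟩
  · refine ⟨fun t => Real.log 2 + (Real.log ‖ev1 (pol A e) t‖ - Real.log ‖ev1 (cox A) t‖),
      ?_, ?_, ?_⟩
    · exact intervalIntegrable_const.add
        ((D_intervalIntegrable_log (pol A e)).sub (D_intervalIntegrable_log (cox A)))
    · filter_upwards [D_ae_ne (cox A) (Pool.Agent.W5h66.CX.cox_monic A).ne_zero,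
        D_ae_ne (pol A e) hP0] with t h1 h2
      refine ⟨norm_nonneg _, ?_⟩
      have h3 := h.circle_le hD e he (ez t) (D_norm_ez t)
      change ‖ev1 (cox A) t‖ ≤ ‖ev1 (pol A e) t‖ at h3
      set p := ‖ev1 (pol A e) t‖
      set f := ‖ev1 (cox A) t‖ with hf
      have hf0 : 0 < f := norm_pos_iff.mpr h1
      have hp0 : 0 < p := norm_pos_iff.mpr h2
      rw [norm_div]
      change Real.log (1 + p / f) ≤ Real.log 2 + (Real.log p - Real.log f)
      rw [← Real.log_div hp0.ne' hf0.ne', ← Real.log_mul two_ne_zero (div_pos hp0 hf0).ne']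
      refine Real.log_le_log (by positivity) ?_
      have h4 : 1 ≤ p / f := by
        rw [le_div_iff₀ hf0, one_mul]
        exact h3
      linarith
    · rw [intervalIntegral.integral_add intervalIntegrable_const
        ((D_intervalIntegrable_log (pol A e)).sub (D_intervalIntegrable_log (cox A))),
        intervalIntegral.integral_sub (D_intervalIntegrable_log (pol A e))
          (D_intervalIntegrable_log (cox A)), ← D_log_m1, ← D_log_m1]
      have h1 := h.measure hC V hV e he hz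
      have h2 : 0 < m1 (pol A e) := lt_of_lt_of_le one_pos (Pool.Agent.Y820.LB.one_le_m1 hP0)
      have h3 := Real.log_le_log h2 h1
      rw [Real.log_mul hprod.ne' (by positivity), Real.log_pow] at h3
      have h4 := Real.log_nonneg hF
      simp only [intervalIntegral.integral_const, sub_zero, one_smul]
      linarith
  · filter_upwards [D_ae_ne (cox A) (Pool.Agent.W5h66.CX.cox_monic A).ne_zero] with t h1
    rw [mul_div_cancel₀ _ h1]

end

end Pool.Agent.H28.CXR.Asm
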