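import Pool.Agent.H28.CXR.Asm2

/-!
# Assembly 3: indecomposable matrices; one irreducible factor
-/

set_option autoImplicit false

namespace Pool.Agent.H28.CXR.Asm

open Matrix Polynomial Filter Topology MeasureTheory
open Pool.Agent.H261R2.CM (toC ez ev1 m1 mx1)
open Pool.Agent.W5h66.CX (pol pnc cox Wm Mt cm)
open Pool.Agent.Y820.LB (Dom Good)

noncomputable section

variable {n r : ℕ} {A : Matrix (Fin n) (Fin n) ℤ} {d : Fin n → ℝ}

/-- a positive semidefinite form: all zeros in the closed unit disc -/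
theorem Car.psd (hC : S_CNT) (h : Car A d)
    (hp : ∀ x : Fin n → ℝ, 0 ≤ ∑ i, ∑ j, d i * A i j * x i * x j) (e : Fin n → ℤ)
    (he : ∀ i, 0 ≤ e i) (z : ℂ) (hz : (toC (pol A e)).eval z = 0) : ‖z‖ ≤ 1 := by
  by_contra hcon
  push Not at hcon
  have h1 := h.card hC (r := 0) (fun k => k.elim0) (fun x => by simpa using hp x) e he
  have h0 : toC (pol A e) ≠ 0 := by
    unfold toC
    exact (Polynomial.map_ne_zero_iff (RingHom.injective_int _)).mpr
      (Pool.Agent.W5h66.CX.pol_ne A e he)
  have h2 : z ∈ (toC (pol A e)).roots.filter fun z => 1 < ‖z‖ :=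
    Multiset.mem_filter.mpr ⟨(mem_roots h0).mpr hz, hcon⟩
  have h3 := Multiset.card_pos_iff_exists_mem.mpr ⟨z, h2⟩
  omega

/-- the size of the zeros, for all indecomposable matrices -/
theorem Car.size (hC : S_CNT) (hR : S_RHO) (hT : S_TRI) (h : Car A d)
    (hi : Indec (A.map (Int.castRingHom ℝ))) (e : Fin n → ℤ) (he : ∀ i, 0 ≤ e i) (z : ℂ)
    (hz : (toC (pol A e)).eval z = 0) : ‖z‖ ≤ m1 (cox A) := by
  have h1 := Pool.Agent.W5h66.CX.Dat.one_le A
  rcases hT n (A.map (Int.castRingHom ℝ)) d h.pos (fun i j => by simpa using h.symm i j)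
    h.gcm.off hi with h2 | h2
  · refine (h.psd hC (fun x => ?_) e he z hz).trans h1
    simpa using h2 x
  · exact h.rho hR h2 e he z hz

/-- measure one in the positive semidefinite case -/
theorem Car.psd_one (hC : S_CNT) (h : Car A d)
    (hp : ∀ x : Fin n → ℝ, 0 ≤ ∑ i, ∑ j, d i * A i j * x i * x j) : m1 (cox A) = 1 := by
  have h1 := Pool.Agent.W5h66.CX.Dat.one_le A
  have h0 : toC (cox A) ≠ 0 := by
    unfold toC
    exact (Polynomial.map_ne_zero_iff (RingHom.injective_int _)).mpr
      (Pool.Agent.W5h66.CX.cox_monic A).ne_zero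
  have h2 := measure_le (cox A) 1 le_rfl fun z hz =>
    h.psd hC hp 0 (fun _ => le_rfl) z ((mem_roots h0).mp hz)
  have h3 : (toC (cox A)).leadingCoeff = 1 := by
    unfold toC
    exact (Pool.Agent.W5h66.CX.cox_monic A).map _
  rw [h3, norm_one, one_mul, one_pow] at h2
  exact le_antisymm h2 h1

theorem eval_dvd (P Q : ℤ[X]) (h : P ∣ Q) (z : ℂ) (hz : (toC P).eval z = 0) :
    (toC Q).eval z = 0 := by
  obtain ⟨R, rfl⟩ := h
  unfold toC at hz ⊢
  rw [Polynomial.map_mul, eval_mul, hz, zero_mul]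

/-- an irreducible integer polynomial with a zero which is an algebraic integer divides all integer
polynomials with this zero -/
theorem irr_dvd (H G : ℤ[X]) (hH : Irreducible H) (z : ℂ) (hint : IsIntegral ℤ z)
    (h1 : (toC H).eval z = 0) (h2 : (toC G).eval z = 0) : H ∣ G := by
  have e1 : ∀ P : ℤ[X], (toC P).eval z = aeval z P := by
    intro P
    unfold toC
    rw [eval_map, aeval_def]
    congr 1
  rw [e1] at h1 h2
  have h3 : minpoly ℤ z ∣ H := (minpoly.isIntegrallyClosed_dvd_iff hint H).mp h1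
  have h4 : minpoly ℤ z ∣ G := (minpoly.isIntegrallyClosed_dvd_iff hint G).mp h2
  have h5 : ¬ IsUnit (minpoly ℤ z) := minpoly.not_isUnit ℤ z
  exact ((hH.dvd_iff.mp h3).resolve_left h5).dvd.trans h4

/-- **One irreducible factor.** If `F = H C` with `H` irreducible and `C` of measure one then no
polynomial of a matrix with one row and column deleted has a common zero with `F` outside the unit
circle. -/
theorem one_factor (hC : S_CNT) (hT : S_TRI) (hT1 : S_TOP1) (hT2 : S_TOP2)
    {A : Matrix (Fin (n + 1)) (Fin (n + 1)) ℤ} {d : Fin (n + 1) → ℝ} (h : Car A d)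
    (hi : Indec (A.map (Int.castRingHom ℝ))) (H K : ℤ[X]) (hH : Irreducible H)
    (hK : m1 K = 1) (hF : cox A = H * K) (i : Fin (n + 1)) (z : ℂ) (hz : 1 < ‖z‖)
    (hz0 : (toC (cox A)).eval z = 0) : (toC (pol A (Pi.single i 1))).eval z ≠ 0 := by
  intro hz1
  have hmon := Pool.Agent.W5h66.CX.cox_monic A
  -- `K` has no zeros outside
  have hKz : ∀ w : ℂ, 1 < ‖w‖ → (toC K).eval w ≠ 0 := by
    intro w hw hw0
    have h1 : H.leadingCoeff * K.leadingCoeff = 1 := by
      rw [← leadingCoeff_mul, ← hF]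
      exact hmon
    have h2 : K.leadingCoeff = 1 ∨ K.leadingCoeff = -1 := Int.isUnit_iff.mp
      (IsUnit.of_mul_eq_one_right _ h1)
    rcases h2 with h2 | h2
    · have h3 := root_le K h2 w hw0
      linarith
    · have h4 : (-K).Monic := by
        unfold Polynomial.Monic
        rw [leadingCoeff_neg, h2, neg_neg]
      have h5 : (toC (-K)).eval w = 0 := by
        unfold toC at hw0 ⊢
        rw [Polynomial.map_neg, eval_neg, hw0, neg_zero]
      have h6 := root_le (-K) h4 w h5
      have h7 : m1 (-K) = m1 K := by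
        change (toC (-K)).mahlerMeasure = (toC K).mahlerMeasure
        unfold toC
        rw [Polynomial.map_neg, Polynomial.mahlerMeasure_eq_leadingCoeff_mul_prod_roots,
          Polynomial.mahlerMeasure_eq_leadingCoeff_mul_prod_roots, leadingCoeff_neg, norm_neg,
          roots_neg]
      linarith
  have hsplit : ∀ w : ℂ, 1 < ‖w‖ → (toC (cox A)).eval w = 0 → (toC H).eval w = 0 := by
    intro w hw hw0
    have h1 : (toC H).eval w * (toC K).eval w = 0 := by
      rw [hF] at hw0
      unfold toC at hw0 ⊢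
      rwa [Polynomial.map_mul, eval_mul] at hw0
    exact (mul_eq_zero.mp h1).resolve_right (hKz w hw)
  -- the zero of the deleted polynomial
  set G := cox (Pool.Agent.W5h66.CX.del A i) with hG
  have hps : pol A (Pi.single i 1) = cox A + (X - 1) * G := Pool.Agent.W5h66.CX.pol_single A i
  have hGz : (toC G).eval z = 0 := by
    rw [hps] at hz1
    have h1 : (toC (cox A)).eval z + (z - 1) * (toC G).eval z = 0 := by
      unfold toC at hz1 ⊢
      rw [Polynomial.map_add, Polynomial.map_mul, eval_add, eval_mul] at hz1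
      simpa using hz1
    rw [hz0, zero_add] at h1
    refine (mul_eq_zero.mp h1).resolve_left ?_
    intro h2
    rw [sub_eq_zero.mp h2, norm_one] at hz
    exact lt_irrefl _ hz
  have hint : IsIntegral ℤ z := by
    refine ⟨cox A, hmon, ?_⟩
    have h1 := hz0
    unfold toC at h1
    rw [eval_map] at h1
    exact h1
  have hdvd : H ∣ G := irr_dvd H G hH z hint (hsplit z hz hz0) hGz
  -- indefinite type
  have hno : ¬ ∀ x : Fin (n + 1) → ℝ, 0 ≤ ∑ i, ∑ j, d i * A i j * x i * x j := by
    intro hp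
    have h1 := h.psd_one hC hp
    have h2 := root_le _ hmon z hz0
    linarith
  have hy := (hT (n + 1) (A.map (Int.castRingHom ℝ)) d h.pos
    (fun i j => by simpa using h.symm i j) h.gcm.off hi).resolve_left (by simpa using hno)
  obtain ⟨t, ht, v, hv, hv0⟩ := hT1 (n + 1) (A.map (Int.castRingHom ℝ)) d h.gcm.diag h.pos
    (fun i j => by simpa using h.symm i j) h.gcm.off hi hy
  set M : Matrix (Fin (n + 1)) (Fin (n + 1)) ℝ :=
    t • up (A.map (Int.castRingHom ℝ)) + lo (A.map (Int.castRingHom ℝ)) with hM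
  have hMt : M = Mt A t := by
    rw [hM]
    unfold Mt
    rw [up_map, lo_map]
  have hoff : ∀ i j, i ≠ j → M i j ≤ 0 := by
    intro i j hij
    rw [hMt]
    exact Pool.Agent.W5h66.CX.Mt_off A h.off t (by linarith) i j hij
  have hind : Indec M := by
    intro S hS1 hS2
    obtain ⟨i, hi1, j, hj1, hij⟩ := hi S hS1 hS2
    refine ⟨i, hi1, j, hj1, ?_⟩
    have hne : i ≠ j := by
      rintro rfl
      exact hj1 hi1
    rw [hM]
    rcases lt_or_gt_of_ne hne with h1 | h1
    · simp only [Matrix.add_apply, Matrix.smul_apply, up, lo, Matrix.of_apply, if_pos h1,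
        if_neg h1.not_gt, if_neg hne, add_zero, smul_eq_mul]
      exact mul_ne_zero (by linarith) hij
    · simp only [Matrix.add_apply, Matrix.smul_apply, up, lo, Matrix.of_apply, if_pos h1,
        if_neg h1.not_gt, if_neg hne, smul_eq_mul, mul_zero, zero_add]
      exact hij
  have hdet0 : M.det = 0 := by
    rw [← Matrix.exists_mulVec_eq_zero_iff]
    refine ⟨v, ?_, hv0⟩
    intro h1
    have := hv 0
    rw [h1] at this
    simp at this
  have hsub := hT2 n M hoff hind ⟨v, hv, hv0⟩ i
  have htC : (toC (cox A)).eval (t : ℂ) = 0 := by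
    rw [Pool.Agent.W5h66.CX.toC_eq, eval_map, ← Complex.ofRealHom_eq_coe t, eval₂_at_apply,
      Pool.Agent.W5h66.CX.cox_eval_real, ← hMt, hdet0, map_zero]
  have htn : 1 < ‖(t : ℂ)‖ := by
    rw [Complex.norm_real, Real.norm_eq_abs, abs_of_pos (by linarith)]
    exact ht
  have hGt : (toC G).eval (t : ℂ) = 0 := eval_dvd H G hdvd _ (hsplit _ htn htC)
  apply hsub
  have h5 : (Mt (Pool.Agent.W5h66.CX.del A i) t) = M.submatrix i.succAbove i.succAbove := by
    rw [hMt]
    unfold Mt
    rw [Pool.Agent.W5h66.CX.up_del, Pool.Agent.W5h66.CX.lo_del]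
    ext a b
    simp
  rw [← h5, ← Pool.Agent.W5h66.CX.cox_eval_real]
  have h6 := hGt
  rw [hG, Pool.Agent.W5h66.CX.toC_eq, eval_map, ← Complex.ofRealHom_eq_coe t, eval₂_at_apply]
    at h6
  exact Complex.ofReal_eq_zero.mp h6

end

end Pool.Agent.H28.CXR.Asm
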